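import Pool.Agent.Helper29.SubLat.StrictMain

/-!
# The strict form: families
-/

set_option autoImplicit false

namespace Pool.Agent.Helper29.SubLat

theorem card_sub {α : Type*} [DecidableEq α] (𝒜 : Finset (Finset α)) (p : Finset α → Prop)
    [DecidablePred p] :
    (𝒜.filter p).card = (Finset.univ.filter fun X : {X // X ∈ 𝒜} => p X.1).card := by
  rw [← Finset.card_map (Function.Embedding.subtype (fun X => X ∈ 𝒜))]
  congr 1
  ext X
  simp only [Finset.mem_map, Finset.mem_filter, Finset.mem_univ, true_and,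
    Function.Embedding.coe_subtype, Subtype.exists, exists_and_right, exists_eq_right]
  constructor
  · rintro ⟨h3, h4⟩
    exact ⟨h3, h4⟩
  · rintro ⟨h3, h4⟩
    exact ⟨h3, h4⟩

theorem family_strict {L : Type*} [Lattice L] [Finite L] (h : StrictF L)
    {α : Type*} [DecidableEq α] (𝒜 : Finset (Finset α))
    (hu : ∀ X ∈ 𝒜, ∀ Y ∈ 𝒜, X ∪ Y ∈ 𝒜) (e : {X // X ∈ 𝒜} ≃o Lᵒᵈ) :
    ∃ i ∈ 𝒜.sup id, 𝒜.card < 2 * (𝒜.filter fun X => i ∈ X).card := by
  classical
  obtain ⟨j, hj, hc⟩ := h
  have key : ∀ X Y : {X // X ∈ 𝒜}, X.1 ⊆ Y.1 ↔ OrderDual.ofDual (e Y) ≤ OrderDual.ofDual (e X) := by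
    intro X Y
    exact (e.le_iff_le (x := X) (y := Y)).symm
  obtain ⟨k, hkj, hk⟩ : ∃ k : L, k < j ∧ ∀ l, l < j → l ≤ k := by
    have hne : ∃ l, l < j := by
      by_contra hno
      push Not at hno
      apply hj.1
      intro b hb
      by_contra h2
      exact hno b (lt_of_le_not_ge hb h2)
    obtain ⟨l, hl⟩ := hne
    obtain ⟨k, hk⟩ : ∃ k, Maximal (fun l => l < j) k :=
      (Set.toFinite {l : L | l < j}).exists_maximal ⟨l, hl⟩
    refine ⟨k, hk.1, fun l hl => ?_⟩
    have h1 : k ⊔ l < j := by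
      refine lt_of_le_of_ne (sup_le hk.1.le hl.le) (fun h2 => ?_)
      rcases hj.2 h2 with h3 | h3
      · exact hk.1.ne h3
      · exact hl.ne h3
    exact le_sup_right.trans (hk.2 h1 le_sup_left)
  set M := e.symm (OrderDual.toDual j) with hM
  set P := e.symm (OrderDual.toDual k) with hP
  have heM : OrderDual.ofDual (e M) = j := by rw [hM, e.apply_symm_apply]; rfl
  have heP : OrderDual.ofDual (e P) = k := by rw [hP, e.apply_symm_apply]; rfl
  have hPM : ¬ P.1 ⊆ M.1 := by
    rw [key, heM, heP]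
    exact not_le_of_gt hkj
  obtain ⟨i, hiP, hiM⟩ := Finset.not_subset.1 hPM
  have hiff : ∀ X : {X // X ∈ 𝒜}, i ∉ X.1 ↔ j ≤ OrderDual.ofDual (e X) := by
    intro X
    rw [← heM, ← key]
    constructor
    · intro hiX
      by_contra hXM
      apply hiX
      let Z : {X // X ∈ 𝒜} := ⟨X.1 ∪ M.1, hu _ X.2 _ M.2⟩
      have h1 : OrderDual.ofDual (e Z) < j := by
        rw [← heM]
        refine lt_of_le_not_ge ((key M Z).1 Finset.subset_union_right) (fun h2 => ?_)
        exact hXM (Finset.subset_union_left.trans ((key Z M).2 h2))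
      have h2 := hk _ h1
      rw [← heP, ← key] at h2
      have h3 : i ∈ X.1 ∪ M.1 := h2 hiP
      rcases Finset.mem_union.1 h3 with h4 | h4
      · exact h4
      · exact absurd h4 hiM
    · intro h1 h2
      exact hiM (h1 h2)
  refine ⟨i, Finset.mem_sup.2 ⟨P.1, P.2, hiP⟩, ?_⟩
  have h1 : Nat.card {H : L // j ≤ H} = (𝒜.filter fun X => i ∉ X).card := by
    have h2 : Nat.card {H : L // j ≤ H} = Nat.card {X : {X // X ∈ 𝒜} // i ∉ X.1} := by
      refine (Nat.card_congr ((e.toEquiv.trans OrderDual.ofDual).subtypeEquiv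
        (fun X => ?_))).symm
      exact hiff X
    rw [h2, Nat.card_eq_fintype_card, Fintype.card_subtype, card_sub]
  have h2 : Nat.card L = 𝒜.card := by
    rw [← Nat.card_congr (e.toEquiv.trans OrderDual.ofDual), Nat.card_eq_fintype_card,
      Fintype.card_coe]
  rw [h1, h2] at hc
  have h3 := Finset.card_filter_add_card_filter_not (s := 𝒜) (fun X => i ∈ X)
  omega

theorem half_cube {n : ℕ} (c : Fin n) :
    2 * (Finset.univ.filter fun w : Fin n → Bool => w c = false).card =
      Fintype.card (Fin n → Bool) := by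
  classical
  have h1 : (Finset.univ.filter fun w : Fin n → Bool => w c = false).card =
      (Finset.univ.filter fun w : Fin n → Bool => ¬ w c = false).card := by
    apply Finset.card_bij (fun w _ => Function.update w c true)
    · intro w _
      simp
    · intro w hw w' hw' h
      simp only [Finset.mem_filter, Finset.mem_univ, true_and] at hw hw'
      funext d
      by_cases hd : d = c
      · rw [hd, hw, hw']
      · have := congrFun h d
        simpa [Function.update_of_ne hd] using this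
    · intro w hw
      simp only [Finset.mem_filter, Finset.mem_univ, true_and] at hw
      refine ⟨Function.update w c false, by simp, ?_⟩
      funext d
      by_cases hd : d = c
      · subst hd
        simp only [Function.update_self]
        exact (Bool.eq_true_of_not_eq_false hw).symm
      · simp [Function.update_of_ne hd]
  have h2 := Finset.card_filter_add_card_filter_not
    (s := (Finset.univ : Finset (Fin n → Bool))) (fun w => w c = false)
  rw [Finset.card_univ] at h2
  omega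

theorem family_boo {L : Type*} [Lattice L] (h : Boo L)
    {α : Type*} [DecidableEq α] (𝒜 : Finset (Finset α)) (hne : 𝒜.Nonempty)
    (hu : ∀ X ∈ 𝒜, ∀ Y ∈ 𝒜, X ∪ Y ∈ 𝒜) (e : {X // X ∈ 𝒜} ≃o Lᵒᵈ)
    (hsep : ∀ x ∈ 𝒜.sup id, ∀ y ∈ 𝒜.sup id, x ≠ y →
      ∃ T ∈ 𝒜, (x ∈ T ∧ y ∉ T) ∨ (y ∈ T ∧ x ∉ T))
    (hpow : 𝒜 ≠ (𝒜.sup id).powerset) :
    ∃ i ∈ 𝒜.sup id, 𝒜.card < 2 * (𝒜.filter fun X => i ∈ X).card := by
  classical
  by_contra hno
  push Not at hno
  obtain ⟨n, ⟨f⟩⟩ := h.dual
  let g : {X // X ∈ 𝒜} ≃o (Fin n → Bool) := e.trans f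
  have hcard : 𝒜.card = Fintype.card (Fin n → Bool) := by
    rw [← Fintype.card_coe 𝒜]
    exact Fintype.card_congr g.toEquiv
  have hpos : 0 < 𝒜.card := Finset.card_pos.2 hne
  -- every element is a coordinate
  have hcoord : ∀ i ∈ 𝒜.sup id, ∃ c : Fin n, ∀ X : {X // X ∈ 𝒜}, i ∈ X.1 ↔ g X c = true := by
    intro i hi
    have hci := hno i hi
    have hsum := Finset.card_filter_add_card_filter_not (s := 𝒜) (fun X => i ∈ X)
    -- the largest member without `i`
    have hFne : (𝒜.filter fun X => i ∉ X).Nonempty := by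
      rw [← Finset.card_pos]
      omega
    have hM : (𝒜.filter fun X => i ∉ X).sup' hFne id ∈ 𝒜 ∧
        i ∉ (𝒜.filter fun X => i ∉ X).sup' hFne id := by
      refine Finset.sup'_induction hFne id (p := fun X => X ∈ 𝒜 ∧ i ∉ X) ?_ ?_
      · rintro X ⟨hX, hiX⟩ Y ⟨hY, hiY⟩
        refine ⟨hu X hX Y hY, ?_⟩
        change i ∉ X ∪ Y
        rw [Finset.mem_union]
        tauto
      · intro X hX
        exact Finset.mem_filter.1 hX
    set M : {X // X ∈ 𝒜} := ⟨_, hM.1⟩ with hMdef
    have hiff : ∀ X : {X // X ∈ 𝒜}, i ∉ X.1 ↔ g X ≤ g M := by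
      intro X
      rw [g.le_iff_le]
      constructor
      · intro hX
        exact Finset.le_sup' (f := id) (Finset.mem_filter.2 ⟨X.2, hX⟩)
      · intro hXM h
        exact hM.2 (hXM h)
    obtain ⟨c, hc⟩ : ∃ c, g M c = false := by
      by_contra hall
      push Not at hall
      obtain ⟨T, hT, hiT⟩ := Finset.mem_sup.1 hi
      have h1 : g ⟨T, hT⟩ ≤ g M := by
        intro d
        have := hall d
        rw [Bool.eq_true_of_not_eq_false this]
        exact Bool.le_true _
      exact (hiff ⟨T, hT⟩).2 h1 hiT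
    refine ⟨c, ?_⟩
    have hsubset : (Finset.univ.filter fun X : {X // X ∈ 𝒜} => i ∉ X.1) ⊆
        Finset.univ.filter fun X : {X // X ∈ 𝒜} => g X c = false := by
      intro X hX
      simp only [Finset.mem_filter, Finset.mem_univ, true_and] at hX ⊢
      have h1 := (hiff X).1 hX c
      rw [hc] at h1
      exact Bool.eq_false_of_le_false h1
    have hhalf : 2 * (Finset.univ.filter fun X : {X // X ∈ 𝒜} => g X c = false).card =
        𝒜.card := by
      rw [hcard, ← half_cube c]
      congr 1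
      rw [← Fintype.card_subtype, ← Fintype.card_subtype]
      exact Fintype.card_congr (g.toEquiv.subtypeEquiv (fun X => Iff.rfl))
    have hn := card_sub 𝒜 (fun X => i ∉ X)
    have heq := Finset.eq_of_subset_of_card_le hsubset (by omega)
    intro X
    have h1 : X ∈ (Finset.univ.filter fun X : {X // X ∈ 𝒜} => i ∉ X.1) ↔
        X ∈ Finset.univ.filter fun X : {X // X ∈ 𝒜} => g X c = false := by rw [heq]
    simp only [Finset.mem_filter, Finset.mem_univ, true_and] at h1
    constructor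
    · intro hX
      by_contra h2
      exact (h1.2 (Bool.eq_false_of_not_eq_true h2)) hX
    · intro hX
      by_contra h2
      have := h1.1 h2
      rw [hX] at this
      exact Bool.noConfusion this
  choose c hc using hcoord
  have hinj : Function.Injective (fun i : {i // i ∈ 𝒜.sup id} => c i.1 i.2) := by
    rintro ⟨x, hx⟩ ⟨y, hy⟩ hxy
    apply Subtype.ext
    by_contra hne
    change x ≠ y at hne
    obtain ⟨T, hT, h1⟩ := hsep x hx y hy hne
    have h2 := hc x hx ⟨T, hT⟩
    have h3 := hc y hy ⟨T, hT⟩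
    have hxy' : c x hx = c y hy := hxy
    rw [hxy', ← h3] at h2
    change x ∈ T ↔ y ∈ T at h2
    tauto
  have hle : (𝒜.sup id).card ≤ n := by
    have := Fintype.card_le_of_injective _ hinj
    simpa using this
  apply hpow
  apply Finset.eq_of_subset_of_card_le
  · intro X hX
    rw [Finset.mem_powerset]
    exact Finset.le_sup (f := id) hX
  · rw [Finset.card_powerset, hcard]
    have h1 : Fintype.card (Fin n → Bool) = 2 ^ n := by simp
    rw [h1]
    exact Nat.pow_le_pow_right (by norm_num) hle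

theorem family_poonen {L : Type*} [Lattice L] [Finite L] (h : Boo L ∨ StrictF L)
    {α : Type*} [DecidableEq α] (𝒜 : Finset (Finset α)) (hne : 𝒜.Nonempty)
    (hu : ∀ X ∈ 𝒜, ∀ Y ∈ 𝒜, X ∪ Y ∈ 𝒜) (e : {X // X ∈ 𝒜} ≃o Lᵒᵈ)
    (hsep : ∀ x ∈ 𝒜.sup id, ∀ y ∈ 𝒜.sup id, x ≠ y →
      ∃ T ∈ 𝒜, (x ∈ T ∧ y ∉ T) ∨ (y ∈ T ∧ x ∉ T))
    (hpow : 𝒜 ≠ (𝒜.sup id).powerset) :
    ∃ i ∈ 𝒜.sup id, 𝒜.card < 2 * (𝒜.filter fun X => i ∈ X).card := by
  rcases h with h | h
  · exact family_boo h 𝒜 hne hu e hsep hpow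
  · exact family_strict h 𝒜 hu e

end Pool.Agent.Helper29.SubLat
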