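import Pool.Agent.Helper29.SubLat.Lat

/-!
# The lattice of the subalgebras of a finite field satisfies the criterion
-/

set_option autoImplicit false

namespace Pool.Agent.Helper29.SubLat

theorem modular_of_iso {L L' : Type*} [Lattice L] [Lattice L'] [IsModularLattice L']
    (e : L ≃o L') : IsModularLattice L := by
  constructor
  intro x y z hxz
  rw [← e.le_iff_le]
  simp only [e.map_sup, e.map_inf]
  exact IsModularLattice.sup_inf_le_assoc_of_le _ (e.monotone hxz)

theorem modular_intermediate (K F : Type*) [Field K] [Field F] [Algebra K F] [Finite F] :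
    IsModularLattice (IntermediateField K F) := by
  have : Finite K := Finite.of_injective _ (algebraMap K F).injective
  let _ : CommGroup (F ≃ₐ[K] F) := IsCyclic.commGroup
  exact modular_of_iso (IsGalois.intermediateFieldEquivSubgroup (F := K) (E := F))

/-- a subalgebra of a finite field is a subfield -/
noncomputable def toInter {S F : Type*} [CommRing S] [Field F] [Finite F] [Algebra S F] (p : ℕ)
    [Algebra (ZMod p) F] [Fact p.Prime] (H : Subalgebra S F) : IntermediateField (ZMod p) F where
  carrier := H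
  mul_mem' := H.mul_mem
  add_mem' := H.add_mem
  algebraMap_mem' := by
    intro r
    obtain ⟨k, rfl⟩ := ZMod.natCast_zmod_surjective r
    rw [map_natCast]
    exact natCast_mem H k
  inv_mem' := by
    intro x hx
    by_cases h0 : x = 0
    · rw [h0, inv_zero]; exact H.zero_mem
    · have := Fintype.ofFinite F
      have h1 := FiniteField.pow_card_sub_one_eq_one x h0
      have h2 : 2 ≤ Fintype.card F := Fintype.one_lt_card
      have h3 : x ^ (Fintype.card F - 2) * x = 1 := by
        rw [← pow_succ, show Fintype.card F - 2 + 1 = Fintype.card F - 1 by omega]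
        exact h1
      rw [← eq_inv_of_mul_eq_one_left h3]
      exact H.pow_mem hx _

theorem mem_toInter {S F : Type*} [CommRing S] [Field F] [Finite F] [Algebra S F] (p : ℕ)
    [Algebra (ZMod p) F] [Fact p.Prime] (H : Subalgebra S F) (x : F) :
    x ∈ toInter p H ↔ x ∈ H := Iff.rfl

theorem modular_law {S F : Type*} [CommRing S] [Field F] [Finite F] [Algebra S F]
    (H X B : Subalgebra S F) (hX : X ≤ H) (hB : B ⊔ X = ⊤) : H ≤ (H ⊓ B) ⊔ X := by
  obtain ⟨p, hp⟩ := CharP.exists F
  have hpp : Fact p.Prime := ⟨CharP.char_is_prime F p⟩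
  let _ : Algebra (ZMod p) F := ZMod.algebra F p
  have hmod := modular_intermediate (ZMod p) F
  let Φ : Subalgebra S F → IntermediateField (ZMod p) F := fun H => toInter p H
  have hmono : ∀ A B : Subalgebra S F, A ≤ B ↔ Φ A ≤ Φ B := fun A B => Iff.rfl
  -- a subfield containing the image of some `Φ A` is in the image
  have hback : ∀ (A : Subalgebra S F) (E : IntermediateField (ZMod p) F), Φ A ≤ E →
      ∃ C : Subalgebra S F, Φ C = E := by
    intro A E hE
    refine ⟨{ carrier := E, mul_mem' := E.mul_mem, add_mem' := E.add_mem,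
              algebraMap_mem' := fun r => hE (A.algebraMap_mem r) }, ?_⟩
    ext x
    exact Iff.rfl
  have h1 : Φ B ⊔ Φ X = ⊤ := by
    obtain ⟨C, hC⟩ := hback B (Φ B ⊔ Φ X) le_sup_left
    have h2 : B ≤ C := (hmono _ _).2 (by rw [hC]; exact le_sup_left)
    have h3 : X ≤ C := (hmono _ _).2 (by rw [hC]; exact le_sup_right)
    have h4 : C = ⊤ := top_le_iff.1 (hB ▸ sup_le h2 h3)
    rw [← hC, h4]
    ext x
    simp only [Φ, mem_toInter]
    exact ⟨fun _ => trivial, fun _ => Algebra.mem_top⟩
  have h5 : Φ (H ⊓ B) = Φ H ⊓ Φ B := by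
    ext x
    exact Iff.rfl
  rw [hmono]
  have h6 : Φ X ≤ Φ H := (hmono _ _).1 hX
  calc Φ H = (Φ X ⊔ Φ B) ⊓ Φ H := by rw [sup_comm, h1, top_inf_eq]
    _ ≤ Φ X ⊔ Φ B ⊓ Φ H := IsModularLattice.sup_inf_le_assoc_of_le _ h6
    _ = Φ X ⊔ Φ (H ⊓ B) := by rw [h5, inf_comm]
    _ ≤ Φ ((H ⊓ B) ⊔ X) := sup_le ((hmono _ _).1 le_sup_right) ((hmono _ _).1 le_sup_left)

theorem supIrred_of_minimal {L : Type*} [Lattice L] [OrderBot L] {B X : L}
    (hX : Minimal (fun X => ¬ X ≤ B) X) : SupIrred X := by
  constructor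
  · intro h
    apply hX.1
    have : X ≤ ⊥ := h bot_le
    exact this.trans bot_le
  · intro b c hbc
    by_contra hno
    push Not at hno
    have hb : b ≤ B := by
      by_contra h
      exact hno.1 (le_antisymm (hbc ▸ le_sup_left) (hX.2 h (hbc ▸ le_sup_left)))
    have hc : c ≤ B := by
      by_contra h
      exact hno.2 (le_antisymm (hbc ▸ le_sup_right) (hX.2 h (hbc ▸ le_sup_right)))
    exact hX.1 (hbc ▸ sup_le hb hc)

theorem finite_subalgebra (S Q : Type*) [CommRing S] [Ring Q] [Algebra S Q] [Finite Q] :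
    Finite (Subalgebra S Q) :=
  Finite.of_injective (fun H : Subalgebra S Q => (H : Set Q)) SetLike.coe_injective

theorem good_field {S F : Type*} [CommRing S] [Field F] [Finite F] [Algebra S F]
    (h0 : (⊥ : Subalgebra S F) ≠ ⊤) : Good (Subalgebra S F) := by
  have hfin := finite_subalgebra S F
  obtain ⟨B, hB, -⟩ := (eq_top_or_exists_le_coatom (⊥ : Subalgebra S F)).resolve_left h0
  obtain ⟨X, hX⟩ : ∃ X, Minimal (fun X : Subalgebra S F => ¬ X ≤ B) X :=
    (Set.toFinite {X : Subalgebra S F | ¬ X ≤ B}).exists_minimal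
      ⟨⊤, fun h => hB.1 (top_le_iff.1 h)⟩
  refine ⟨X, X, supIrred_of_minimal hX, supIrred_of_minimal hX, fun T hT _ =>
    ⟨T ⊓ B, inf_le_left, fun h => hX.1 (h.trans inf_le_right),
      fun h => hX.1 (h.trans inf_le_right), ?_⟩⟩
  refine (modular_law T X B hT ?_).trans le_sup_left
  exact hB.2 _ (lt_of_le_of_ne le_sup_left (fun h => hX.1 (by rw [h]; exact le_sup_right)))

end Pool.Agent.Helper29.SubLat
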