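import Pool.Agent.Y396.Frankl.Crit

/-!
# The two-element criterion for lattices, and union-closed families
-/

set_option autoImplicit false

namespace Pool.Agent.Helper29.SubLat

/-- two-element criterion in lattice form -/
def Good (L : Type*) [Lattice L] : Prop :=
  ∃ X Y : L, SupIrred X ∧ SupIrred Y ∧ ∀ T : L, X ≤ T → Y ≤ T →
    ∃ M : L, M ≤ T ∧ ¬ X ≤ M ∧ ¬ Y ≤ M ∧ T ≤ M ⊔ X ⊔ Y

theorem Good.count {L : Type*} [Lattice L] [Finite L] (h : Good L) :
    ∃ j : L, SupIrred j ∧ 2 * Nat.card {H : L // j ≤ H} ≤ Nat.card L := by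
  classical
  obtain ⟨X, Y, hX, hY, hT⟩ := h
  have : Nonempty L := ⟨X⟩
  choose! M hM using hT
  rcases Pool.Agent.Y396.Frankl.crit_card (𝓗 := L) (fun H => X ≤ H) (fun H => Y ≤ H) M
    (by
      intro H K hXH hYH hXK hYK hHK
      obtain ⟨h1, _, _, h2⟩ := hM H hXH hYH
      obtain ⟨h3, _, _, h4⟩ := hM K hXK hYK
      apply le_antisymm
      · refine h2.trans (sup_le (sup_le ?_ hXK) hYK)
        rw [hHK]; exact h3
      · refine h4.trans (sup_le (sup_le ?_ hXH) hYH)
        rw [← hHK]; exact h1)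
    (by
      intro H hXH hYH
      obtain ⟨_, h2, h3, _⟩ := hM H hXH hYH
      exact ⟨h2, h3⟩) with h | h
  · exact ⟨X, hX, h⟩
  · exact ⟨Y, hY, h⟩

theorem supIrred_map {L L' : Type*} [Lattice L] [Lattice L'] (e : L ≃o L') {j : L}
    (hj : SupIrred j) : SupIrred (e j) := by
  constructor
  · intro h
    apply hj.1
    intro b hb
    have := h (e.monotone hb)
    exact e.le_iff_le.1 this
  · intro b c hbc
    have h1 : e.symm b ⊔ e.symm c = j := by
      rw [← e.symm.map_sup, hbc, e.symm_apply_apply]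
    rcases hj.2 h1 with h | h
    · left; rw [← h, e.apply_symm_apply]
    · right; rw [← h, e.apply_symm_apply]

theorem count_map {L L' : Type*} [Lattice L] [Lattice L'] (e : L ≃o L')
    (h : ∃ j : L, SupIrred j ∧ 2 * Nat.card {H : L // j ≤ H} ≤ Nat.card L) :
    ∃ j : L', SupIrred j ∧ 2 * Nat.card {H : L' // j ≤ H} ≤ Nat.card L' := by
  obtain ⟨j, hj, hc⟩ := h
  refine ⟨e j, supIrred_map e hj, ?_⟩
  have h1 : Nat.card {H : L // j ≤ H} = Nat.card {H : L' // e j ≤ H} :=
    Nat.card_congr (e.toEquiv.subtypeEquiv (fun a => (e.le_iff_le (x := j) (y := a)).symm))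
  have h2 : Nat.card L = Nat.card L' := Nat.card_congr e.toEquiv
  rw [← h1, ← h2]
  exact hc

/-- lattice form implies the family form -/
theorem family {L : Type*} [Lattice L] [Finite L]
    (h : ∃ j : L, SupIrred j ∧ 2 * Nat.card {H : L // j ≤ H} ≤ Nat.card L)
    {α : Type*} [DecidableEq α] (𝒜 : Finset (Finset α))
    (hu : ∀ X ∈ 𝒜, ∀ Y ∈ 𝒜, X ∪ Y ∈ 𝒜) (e : {X // X ∈ 𝒜} ≃o Lᵒᵈ) :
    ∃ i : α, 𝒜.card ≤ 2 * (𝒜.filter fun X => i ∈ X).card := by
  classical
  obtain ⟨j, hj, hc⟩ := h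
  -- orientation
  have key : ∀ X Y : {X // X ∈ 𝒜}, X.1 ⊆ Y.1 ↔ OrderDual.ofDual (e Y) ≤ OrderDual.ofDual (e X) := by
    intro X Y
    exact (e.le_iff_le (x := X) (y := Y)).symm
  -- the largest element below `j`
  obtain ⟨k, hkj, hk⟩ : ∃ k : L, k < j ∧ ∀ l, l < j → l ≤ k := by
    have hne : ∃ l, l < j := by
      by_contra hno
      push Not at hno
      apply hj.1
      intro b hb
      by_contra h2
      exact hno b (lt_of_le_not_ge hb h2)
    obtain ⟨l, hl⟩ := hne
    obtain ⟨k, hk⟩ : ∃ k, Maximal (fun l => l < j) k :=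
      (Set.toFinite {l : L | l < j}).exists_maximal ⟨l, hl⟩
    refine ⟨k, hk.1, fun l hl => ?_⟩
    have h1 : k ⊔ l < j := by
      refine lt_of_le_of_ne (sup_le hk.1.le hl.le) (fun h2 => ?_)
      rcases hj.2 h2 with h3 | h3
      · exact hk.1.ne h3
      · exact hl.ne h3
    exact le_sup_right.trans (hk.2 h1 le_sup_left)
  set M := e.symm (OrderDual.toDual j) with hM
  set P := e.symm (OrderDual.toDual k) with hP
  have heM : OrderDual.ofDual (e M) = j := by rw [hM, e.apply_symm_apply]; rfl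
  have heP : OrderDual.ofDual (e P) = k := by rw [hP, e.apply_symm_apply]; rfl
  have hPM : ¬ P.1 ⊆ M.1 := by
    rw [key, heM, heP]
    exact not_le_of_gt hkj
  obtain ⟨i, hiP, hiM⟩ := Finset.not_subset.1 hPM
  have hiff : ∀ X : {X // X ∈ 𝒜}, i ∉ X.1 ↔ j ≤ OrderDual.ofDual (e X) := by
    intro X
    rw [← heM, ← key]
    constructor
    · intro hiX
      by_contra hXM
      apply hiX
      let Z : {X // X ∈ 𝒜} := ⟨X.1 ∪ M.1, hu _ X.2 _ M.2⟩
      have h1 : OrderDual.ofDual (e Z) < j := by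
        rw [← heM]
        refine lt_of_le_not_ge ((key M Z).1 Finset.subset_union_right) (fun h2 => ?_)
        exact hXM (Finset.subset_union_left.trans ((key Z M).2 h2))
      have h2 := hk _ h1
      rw [← heP, ← key] at h2
      have h3 : i ∈ X.1 ∪ M.1 := h2 hiP
      rcases Finset.mem_union.1 h3 with h4 | h4
      · exact h4
      · exact absurd h4 hiM
    · intro h1 h2
      exact hiM (h1 h2)
  refine ⟨i, ?_⟩
  have h1 : Nat.card {H : L // j ≤ H} = (𝒜.filter fun X => i ∉ X).card := by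
    have h2 : Nat.card {H : L // j ≤ H} = Nat.card {X : {X // X ∈ 𝒜} // i ∉ X.1} := by
      refine (Nat.card_congr ((e.toEquiv.trans OrderDual.ofDual).subtypeEquiv
        (fun X => ?_))).symm
      exact hiff X
    rw [h2, Nat.card_eq_fintype_card, Fintype.card_subtype, ← Finset.card_map
      (Function.Embedding.subtype _)]
    congr 1
    ext X
    simp only [Finset.mem_map, Finset.mem_filter, Finset.mem_univ, true_and,
      Function.Embedding.coe_subtype, Subtype.exists, exists_and_right, exists_eq_right]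
    constructor
    · rintro ⟨h3, h4⟩
      exact ⟨h3, h4⟩
    · rintro ⟨h3, h4⟩
      exact ⟨h3, h4⟩
  have h2 : Nat.card L = 𝒜.card := by
    rw [← Nat.card_congr (e.toEquiv.trans OrderDual.ofDual), Nat.card_eq_fintype_card,
      Fintype.card_coe]
  rw [h1, h2] at hc
  have h3 := Finset.card_filter_add_card_filter_not (s := 𝒜) (fun X => i ∈ X)
  omega

end Pool.Agent.Helper29.SubLat
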