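import Mathlib

/-!
# Matrix rings over finite fields are generated by two nilpotent matrices
-/

set_option autoImplicit false

namespace Pool.Agent.Helper29.SubLat

open Matrix

variable {n : ℕ} {F : Type*} [Field F]

/-- the nilpotent shift matrix -/
def upShift (n : ℕ) (F : Type*) [Field F] : Matrix (Fin n) (Fin n) F :=
  Matrix.of fun i j => if i.val + 1 = j.val then 1 else 0

theorem upShift_apply (i j : Fin n) :
    upShift n F i j = if i.val + 1 = j.val then 1 else 0 := rfl

theorem upShift_mul (i i' j : Fin n) (h : i'.val + 1 = i.val) (c : F) :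
    upShift n F * Matrix.single i j c = Matrix.single i' j c := by
  ext p q
  rw [Matrix.mul_apply, Finset.sum_eq_single i]
  · rw [upShift_apply, Matrix.single_apply, Matrix.single_apply]
    by_cases hp : p.val + 1 = i.val
    · have h1 : i' = p := Fin.ext (by omega)
      simp [hp, h1]
    · have h1 : i' ≠ p := fun h2 => hp (by rw [← h2]; exact h)
      simp [hp, h1]
  · intro k _ hk
    rw [Matrix.single_apply, if_neg (fun h2 => hk h2.1.symm), mul_zero]
  · intro h; exact absurd (Finset.mem_univ _) h

theorem mul_upShift (i j j' : Fin n) (h : j.val + 1 = j'.val) (c : F) :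
    Matrix.single i j c * upShift n F = Matrix.single i j' c := by
  ext p q
  rw [Matrix.mul_apply, Finset.sum_eq_single j]
  · rw [upShift_apply, Matrix.single_apply, Matrix.single_apply]
    by_cases hq : j.val + 1 = q.val
    · have h1 : j' = q := Fin.ext (by omega)
      simp [hq, h1]
    · have h1 : j' ≠ q := fun h2 => hq (by rw [← h2]; exact h)
      simp [hq, h1]
  · intro k _ hk
    rw [Matrix.single_apply, if_neg (fun h2 => hk h2.2.symm), zero_mul]
  · intro h; exact absurd (Finset.mem_univ _) h

theorem upShift_pow (m : ℕ) (i j : Fin n) (h : j.val < i.val + m) :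
    (upShift n F ^ m) i j = 0 := by
  induction m generalizing j with
  | zero =>
    rw [pow_zero, Matrix.one_apply_ne]
    intro h1
    rw [h1] at h
    omega
  | succ m ih =>
    rw [pow_succ, Matrix.mul_apply]
    apply Finset.sum_eq_zero
    intro k _
    by_cases hk : k.val < i.val + m
    · rw [ih k hk, zero_mul]
    · rw [upShift_apply, if_neg (by omega), mul_zero]

theorem upShift_nilpotent : IsNilpotent (upShift n F) := by
  refine ⟨n, ?_⟩
  ext i j
  rw [upShift_pow n i j (by have := j.2; omega)]
  rfl

theorem upShift_ne : upShift (n + 2) F ≠ 0 := by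
  intro h
  have h1 := congrFun (congrFun h ⟨0, by omega⟩) ⟨1, by omega⟩
  rw [upShift_apply] at h1
  simp at h1

theorem gen_top [Finite F] {θ : Fˣ} (hθ : ∀ u : Fˣ, u ∈ Subgroup.zpowers θ)
    (D : NonUnitalSubring (Matrix (Fin (n + 1)) (Fin (n + 1)) F))
    (h1 : upShift (n + 1) F ∈ D) (h2 : Matrix.single (Fin.last n) 0 (θ : F) ∈ D) : D = ⊤ := by
  classical
  have hrow : ∀ (j : Fin (n + 1)) (c : F), Matrix.single (Fin.last n) j c ∈ D →
      ∀ i : Fin (n + 1), Matrix.single i j c ∈ D := by
    intro j c hj
    have h3 : ∀ k : ℕ, ∀ i : Fin (n + 1), i.val + k = n → Matrix.single i j c ∈ D := by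
      intro k
      induction k with
      | zero =>
        intro i hi
        have : i = Fin.last n := Fin.ext (by simpa using hi)
        rw [this]; exact hj
      | succ k ih =>
        intro i hi
        have h4 := ih ⟨i.val + 1, by omega⟩ (by simp; omega)
        have h5 := D.mul_mem h1 h4
        rwa [upShift_mul _ i _ rfl] at h5
    intro i
    exact h3 (n - i.val) i (by have := i.2; omega)
  have hcol : ∀ (i : Fin (n + 1)) (c : F), Matrix.single i 0 c ∈ D →
      ∀ j : Fin (n + 1), Matrix.single i j c ∈ D := by
    intro i c hi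
    have h3 : ∀ k : ℕ, ∀ hk : k < n + 1, Matrix.single i ⟨k, hk⟩ c ∈ D := by
      intro k
      induction k with
      | zero => intro hk; exact hi
      | succ k ih =>
        intro hk
        have h4 := ih (by omega)
        have h5 := D.mul_mem h4 h1
        rwa [mul_upShift _ _ ⟨k + 1, hk⟩ rfl] at h5
    intro j
    exact h3 j.val j.2
  have hall : ∀ (c : F), Matrix.single (Fin.last n) 0 c ∈ D → ∀ i j, Matrix.single i j c ∈ D :=
    fun c hc i j => hrow j c (hcol _ c hc j) i
  have hpow : ∀ k : ℕ, ∀ i j, Matrix.single i j ((θ : F) ^ (k + 1)) ∈ D := by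
    intro k
    induction k with
    | zero => intro i j; simpa using hall _ h2 i j
    | succ k ih =>
      intro i j
      have h3 := D.mul_mem (ih i 0) (hall _ h2 0 j)
      rw [Matrix.single_mul_single_same, ← pow_succ] at h3
      exact h3
  have h00 : ∀ (i j : Fin (n + 1)) (c : F), Matrix.single i j c ∈ D := by
    intro i j c
    by_cases hc : c = 0
    · rw [hc, Matrix.single_zero]
      exact D.zero_mem
    · obtain ⟨k, hk⟩ := (mem_powers_iff_mem_zpowers.2 (hθ (Units.mk0 c hc)) :
        Units.mk0 c hc ∈ Submonoid.powers θ)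
      have h1 : (θ : F) ^ k = c := by
        have := congrArg Units.val hk
        simpa using this
      have h2 : (θ : F) ^ (k + orderOf θ) = c := by
        rw [pow_add, ← Units.val_pow_eq_pow_val θ (orderOf θ), pow_orderOf_eq_one]
        simpa using h1
      have h3 := hpow (k + orderOf θ - 1) i j
      have h4 : k + orderOf θ - 1 + 1 = k + orderOf θ := by
        have := orderOf_pos θ
        omega
      rwa [h4, h2] at h3
  rw [eq_top_iff]
  intro m _
  rw [Matrix.matrix_eq_sum_single m]
  exact sum_mem fun i _ => sum_mem fun j _ => h00 i j _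

theorem exists_nil_gen [Finite F] :
    ∃ a b : Matrix (Fin (n + 2)) (Fin (n + 2)) F, a ≠ 0 ∧ b ≠ 0 ∧ IsNilpotent a ∧ IsNilpotent b ∧
      ∀ D : NonUnitalSubring (Matrix (Fin (n + 2)) (Fin (n + 2)) F), a ∈ D → b ∈ D → D = ⊤ := by
  classical
  obtain ⟨θ, hθ⟩ := IsCyclic.exists_generator (α := Fˣ)
  refine ⟨upShift (n + 2) F, Matrix.single (Fin.last (n + 1)) 0 (θ : F), upShift_ne, ?_,
    upShift_nilpotent, ⟨2, ?_⟩, fun D h1 h2 => gen_top hθ D h1 h2⟩
  · intro h
    have h1 := congrFun (congrFun h (Fin.last (n + 1))) 0
    rw [Matrix.single_apply_same] at h1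
    exact θ.ne_zero h1
  · rw [pow_two]
    apply Matrix.single_mul_single_of_ne
    intro h
    have := congrArg Fin.val h
    simp at this

end Pool.Agent.Helper29.SubLat
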