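import Mathlib

/-!
# The subalgebra generated by a nilpotent element is join-irreducible
-/

set_option autoImplicit false

namespace Pool.Agent.Helper29.SubLat

open Polynomial

variable {S Q : Type*} [CommRing S] [Ring Q] [Algebra S Q]

/-- the subalgebra of the `f(x)` with vanishing linear coefficient -/
def noLin (S : Type*) {Q : Type*} [CommRing S] [Ring Q] [Algebra S Q] (x : Q) :
    Subalgebra S Q where
  carrier := {y | ∃ f : S[X], algebraMap S Q (f.coeff 1) = 0 ∧ aeval x f = y}
  mul_mem' := by
    rintro a b ⟨f, hf, rfl⟩ ⟨g, hg, rfl⟩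
    refine ⟨f * g, ?_, by rw [map_mul]⟩
    rw [Polynomial.mul_coeff_one, map_add, map_mul, map_mul, hf, hg, mul_zero, zero_mul, add_zero]
  add_mem' := by
    rintro a b ⟨f, hf, rfl⟩ ⟨g, hg, rfl⟩
    refine ⟨f + g, ?_, by rw [map_add]⟩
    rw [Polynomial.coeff_add, map_add, hf, hg, add_zero]
  algebraMap_mem' := by
    intro r
    refine ⟨C r, ?_, by rw [aeval_C]⟩
    rw [Polynomial.coeff_C]
    simp

theorem not_mem_noLin (hS : ∀ k : S, algebraMap S Q k = 0 ∨ ∃ l : S, algebraMap S Q (k * l) = 1)
    {x : Q} (hx0 : x ≠ 0) (hx : IsNilpotent x) : x ∉ noLin S x := by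
  classical
  rintro ⟨f, hf1, hf⟩
  -- `x = c + x^2 g`
  set g := f.divX.divX with hg
  have h1 : f = X * (X * g + C (f.coeff 1)) + C (f.coeff 0) := by
    have h2 := Polynomial.X_mul_divX_add f
    have h3 := Polynomial.X_mul_divX_add f.divX
    rw [Polynomial.coeff_divX, zero_add] at h3
    rw [hg, h3, h2]
  have h2 : x = x * (x * aeval x g) + algebraMap S Q (f.coeff 0) := by
    have h3 : aeval x f = x * (x * aeval x g) + algebraMap S Q (f.coeff 0) := by
      conv_lhs => rw [h1]
      simp only [map_add, map_mul, aeval_X, aeval_C, hf1, add_zero]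
    rw [← h3, hf]
  have hcomm : Commute x (aeval x g) := by
    have := (Polynomial.aeval_mul (p := X) (q := g) x).symm
    rw [mul_comm X g, Polynomial.aeval_mul, aeval_X] at this
    exact this
  -- minimal `n` with `x^n = 0`
  have hc0 : algebraMap S Q (f.coeff 0) = 0 := by
    rcases hS (f.coeff 0) with h | ⟨l, hl⟩
    · exact h
    · exfalso
      -- then `x` is a unit plus ...: multiply by the last nonzero power
      obtain ⟨n, hn, hn'⟩ : ∃ n : ℕ, x ^ n = 0 ∧ ∀ m < n, x ^ m ≠ 0 := by
        obtain ⟨h3, h4⟩ := (⟨Nat.find_spec hx, fun m hm => Nat.find_min hx hm⟩ :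
          x ^ (Nat.find hx) = 0 ∧ ∀ m < Nat.find hx, ¬ x ^ m = 0)
        exact ⟨_, h3, h4⟩
      have hn0 : n ≠ 0 := by
        rintro rfl
        apply hx0
        rw [pow_zero] at hn
        calc x = x * 1 := (mul_one x).symm
          _ = 0 := by rw [hn, mul_zero]
      obtain ⟨m, rfl⟩ := Nat.exists_eq_succ_of_ne_zero hn0
      apply hn' m (Nat.lt_succ_self m)
      have h3 : x ^ m * x = x ^ m * (x * (x * aeval x g)) + x ^ m * algebraMap S Q (f.coeff 0) := by
        rw [← mul_add, ← h2]
      have h4 : x ^ m * x = 0 := by rw [← pow_succ]; exact hn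
      have h5 : x ^ m * (x * (x * aeval x g)) = 0 := by rw [← mul_assoc, h4, zero_mul]
      rw [h4, h5, zero_add] at h3
      calc x ^ m = x ^ m * algebraMap S Q (f.coeff 0 * l) := by rw [hl, mul_one]
        _ = x ^ m * algebraMap S Q (f.coeff 0) * algebraMap S Q l := by
            rw [map_mul, mul_assoc]
        _ = 0 := by rw [← h3, zero_mul]
  rw [hc0, add_zero] at h2
  have h6 : IsNilpotent (x * aeval x g) := hcomm.isNilpotent_mul_right hx
  have h7 : IsUnit (1 - x * aeval x g) := h6.isUnit_one_sub
  have h8 : x * (1 - x * aeval x g) = 0 := by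
    rw [mul_sub, mul_one, ← h2, sub_self]
  exact hx0 ((h7.mul_left_eq_zero).1 h8)

theorem mem_of_lin {x : Q} (hx : IsNilpotent x) (T : Subalgebra S Q) (g : S[X])
    (hy : aeval x (X * (1 + X * g)) ∈ T) : x ∈ T := by
  obtain ⟨n, hn⟩ := hx
  have hj : ∀ j m : ℕ, j + m = n + 1 → 0 < j → ∀ w : S[X], aeval x (X ^ j * w) ∈ T := by
    intro j m
    induction m generalizing j with
    | zero =>
      intro hj _ w
      rw [map_mul, map_pow, aeval_X, show j = n + 1 by omega, pow_succ, hn, zero_mul, zero_mul]
      exact T.zero_mem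
    | succ m ih =>
      intro hj hj0 w
      have ih' := ih (j + 1) (by omega) (by omega)
      -- `x^j`
      have h1 : aeval x (X ^ j : S[X]) ∈ T := by
        obtain ⟨h, hh⟩ : X ∣ ((1 + X * g) ^ j - 1 ^ j : S[X]) :=
          (Dvd.intro g (by ring) : (X : S[X]) ∣ (1 + X * g) - 1).trans
            (sub_dvd_pow_sub_pow _ _ j)
        have h2 : (X ^ j : S[X]) = (X * (1 + X * g)) ^ j - X ^ (j + 1) * h := by
          have h3 : (1 + X * g : S[X]) ^ j = 1 + X * h := by
            rw [← hh, one_pow]; ring
          rw [mul_pow, h3]; ring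
        rw [h2, map_sub, map_pow]
        exact T.sub_mem (T.pow_mem hy j) (ih' h)
      have h4 : (X ^ j * w : S[X]) = X ^ (j + 1) * w.divX + C (w.coeff 0) * X ^ j := by
        conv_lhs => rw [← Polynomial.X_mul_divX_add w]
        ring
      rw [h4, map_add, map_mul (aeval x) (C (w.coeff 0)), aeval_C]
      exact T.add_mem (ih' _) (T.mul_mem (T.algebraMap_mem _) h1)
  have h := hj 1 n (by omega) one_pos 1
  simpa using h

/-- **the subalgebra generated by a nilpotent element is join-irreducible** -/
theorem supIrred_adjoin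
    (hS : ∀ k : S, algebraMap S Q k = 0 ∨ ∃ l : S, algebraMap S Q (k * l) = 1)
    {x : Q} (hx0 : x ≠ 0) (hx : IsNilpotent x) : SupIrred (Algebra.adjoin S {x}) := by
  have hxB := not_mem_noLin hS hx0 hx
  have hxA : x ∈ Algebra.adjoin S {x} := Algebra.subset_adjoin rfl
  have key : ∀ T : Subalgebra S Q, T ≤ Algebra.adjoin S {x} → x ∉ T → T ≤ noLin S x := by
    intro T hT hxT t ht
    have h1 := hT ht
    rw [Algebra.adjoin_singleton_eq_range_aeval] at h1
    obtain ⟨f, rfl⟩ := h1
    refine ⟨f, ?_, rfl⟩
    rcases hS (f.coeff 1) with h | ⟨l, hl⟩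
    · exact h
    · exfalso
      apply hxT
      apply mem_of_lin hx T (C l * f.divX.divX)
      have h2 : f = X * (X * f.divX.divX + C (f.coeff 1)) + C (f.coeff 0) := by
        have h2 := Polynomial.X_mul_divX_add f
        have h3 := Polynomial.X_mul_divX_add f.divX
        rw [Polynomial.coeff_divX, zero_add] at h3
        rw [h3, h2]
      have h3 : aeval x (X * (1 + X * (C l * f.divX.divX))) =
          algebraMap S Q l * (aeval x f - algebraMap S Q (f.coeff 0)) := by
        have h4 : aeval x f = aeval x (X * (X * f.divX.divX + C (f.coeff 1)) + C (f.coeff 0)) := by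
          rw [← h2]
        rw [h4, map_add, aeval_C, add_sub_cancel_right, ← aeval_C x l, ← map_mul]
        have h5 : aeval x (X * (1 + X * (C l * f.divX.divX))) =
            aeval x (X * (C (f.coeff 1 * l) + X * (C l * f.divX.divX))) := by
          simp only [map_mul, map_add, aeval_X, aeval_C, map_one]
          rw [← map_mul, hl]
        rw [h5]
        congr 1
        rw [C_mul]
        ring
      rw [h3]
      exact T.mul_mem (T.algebraMap_mem l) (T.sub_mem ht (T.algebraMap_mem _))
  constructor
  · intro hmin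
    have h1 : Algebra.adjoin S {x} ≤ ⊥ := hmin bot_le
    exact hxB ((h1.trans bot_le) hxA)
  · intro T₁ T₂ h12
    by_contra hno
    push Not at hno
    have h1 : x ∉ T₁ := fun h => hno.1 (le_antisymm (h12 ▸ le_sup_left)
      (Algebra.adjoin_le (by simpa using h)))
    have h2 : x ∉ T₂ := fun h => hno.2 (le_antisymm (h12 ▸ le_sup_right)
      (Algebra.adjoin_le (by simpa using h)))
    have h3 : Algebra.adjoin S {x} ≤ noLin S x := by
      rw [← h12]
      exact sup_le (key T₁ (h12 ▸ le_sup_left) h1) (key T₂ (h12 ▸ le_sup_right) h2)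
    exact hxB (h3 hxA)

end Pool.Agent.Helper29.SubLat
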