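import Pool.Agent.Helper29.SubLat.Fld
import Pool.Agent.Helper29.SubLat.Nilp
import Pool.Agent.Helper29.SubLat.MatNil
import Pool.Agent.Y396.Frankl.Alg

/-!
# Subalgebra lattices of finite algebras
-/

set_option autoImplicit false

namespace Pool.Agent.Helper29.SubLat

open Pool.Agent.Y396.Frankl

universe u v

theorem good_lift {S A Q : Type*} [CommRing S] [Ring A] [Ring Q] [Algebra S A] [Algebra S Q]
    [Finite A] (φ : A →ₐ[S] Q) (hφ : Function.Surjective φ) (h : Good (Subalgebra S Q)) :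
    Good (Subalgebra S A) := by
  have hfin := finite_subalgebra S A
  obtain ⟨X', Y', hX', hY', hT'⟩ := h
  have hmin : ∀ Z : Subalgebra S Q, SupIrred Z → ∃ X : Subalgebra S A, X.map φ = Z ∧ SupIrred X := by
    intro Z hZ
    obtain ⟨X, hX⟩ : ∃ X, Minimal (fun X : Subalgebra S A => X.map φ = Z) X :=
      (Set.toFinite {X : Subalgebra S A | X.map φ = Z}).exists_minimal
        ⟨Z.comap φ, Subalgebra.map_comap_eq_self_of_surjective hφ Z⟩
    refine ⟨X, hX.1, ?_, ?_⟩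
    · intro hm
      apply hZ.1
      have h1 : X = ⊥ := le_bot_iff.1 (hm bot_le)
      have h2 : Z = ⊥ := by rw [← hX.1, h1, Algebra.map_bot]
      rw [h2]
      exact isMin_bot
    · intro b c hbc
      have h1 : b.map φ ⊔ c.map φ = Z := by rw [← Algebra.map_sup, hbc, hX.1]
      rcases hZ.2 h1 with h2 | h2
      · left; exact le_antisymm (hbc ▸ le_sup_left) (hX.2 h2 (hbc ▸ le_sup_left))
      · right; exact le_antisymm (hbc ▸ le_sup_right) (hX.2 h2 (hbc ▸ le_sup_right))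
  obtain ⟨X, hX, hXi⟩ := hmin X' hX'
  obtain ⟨Y, hY, hYi⟩ := hmin Y' hY'
  refine ⟨X, Y, hXi, hYi, fun T hXT hYT => ?_⟩
  obtain ⟨M', hM'T, hXM, hYM, hTM⟩ := hT' (T.map φ) (hX ▸ Subalgebra.map_mono hXT)
    (hY ▸ Subalgebra.map_mono hYT)
  refine ⟨T ⊓ M'.comap φ, inf_le_left, fun h1 => hXM ?_, fun h1 => hYM ?_, ?_⟩
  · rw [← hX]
    exact (Subalgebra.map_le).2 (h1.trans inf_le_right)
  · rw [← hY]
    exact (Subalgebra.map_le).2 (h1.trans inf_le_right)
  · intro t ht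
    have h1 : φ t ∈ ((T ⊓ M'.comap φ) ⊔ X ⊔ Y).map φ := by
      have h2 : T.map φ ≤ ((T ⊓ M'.comap φ) ⊔ X ⊔ Y).map φ := by
        refine hTM.trans ?_
        rw [Algebra.map_sup, Algebra.map_sup, hX, hY]
        refine sup_le_sup_right (sup_le_sup_right ?_ _) _
        intro m hm
        obtain ⟨s, hs, rfl⟩ := hM'T hm
        exact ⟨s, ⟨hs, hm⟩, rfl⟩
      exact h2 ⟨t, ht, rfl⟩
    obtain ⟨w, hw, hwt⟩ := h1
    have hwt' : φ w = φ t := hwt
    have hwT : w ∈ T := (sup_le (sup_le inf_le_left hXT) hYT : _ ≤ T) hw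
    have h3 : t - w ∈ T ⊓ M'.comap φ := by
      refine ⟨T.sub_mem ht hwT, ?_⟩
      change φ (t - w) ∈ M'
      rw [map_sub, hwt', sub_self]
      exact M'.zero_mem
    have h6 : (T ⊓ M'.comap φ) ≤ (T ⊓ M'.comap φ) ⊔ X ⊔ Y := le_sup_left.trans le_sup_left
    have h4 : t - w ∈ (T ⊓ M'.comap φ) ⊔ X ⊔ Y := h6 h3
    have h5 := Subalgebra.add_mem _ h4 hw
    rwa [sub_add_cancel] at h5

theorem good_of_two {S Q : Type*} [CommRing S] [Ring Q] [Algebra S Q]
    (h0 : (⊥ : Subalgebra S Q) ≠ ⊤)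
    (h : ∀ T : Subalgebra S Q, T ≠ ⊥ → T = ⊤) : Good (Subalgebra S Q) := by
  have hirr : SupIrred (⊤ : Subalgebra S Q) := by
    constructor
    · intro hm
      exact h0 (le_antisymm bot_le (hm bot_le))
    · intro b c hbc
      by_contra hno
      push Not at hno
      have hb : b = ⊥ := by
        by_contra hb
        exact hno.1 (h b hb)
      have hc : c = ⊥ := by
        by_contra hc
        exact hno.2 (h c hc)
      rw [hb, hc, bot_sup_eq] at hbc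
      exact h0 hbc
  refine ⟨⊤, ⊤, hirr, hirr, fun T _ _ => ⟨⊥, bot_le, fun h1 => ?_, fun h1 => ?_, ?_⟩⟩
  · exact h0 (le_antisymm bot_le h1)
  · exact h0 (le_antisymm bot_le h1)
  · exact le_top.trans le_sup_right

/-- some nonzero ideal has a nonzero annihilator -/
theorem good_case_one {S Q : Type*} [CommRing S] [Ring Q] [Algebra S Q]
    (h0 : ∃ x : Q, ∀ k : S, x ≠ algebraMap S Q k)
    (hmin : ∀ L : TwoSidedIdeal Q, L ≠ ⊥ → ∀ x : Q, ∃ k : S, x - algebraMap S Q k ∈ L)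
    (K N : TwoSidedIdeal Q) (hK : K ≠ ⊥) (hN : N ≠ ⊥)
    (hKN : ∀ x ∈ K, ∀ y ∈ N, x * y = 0 ∧ y * x = 0) : Good (Subalgebra S Q) := by
  have hbt : (⊥ : Subalgebra S Q) ≠ ⊤ := by
    intro h
    obtain ⟨x, hx⟩ := h0
    obtain ⟨k, hk⟩ := Algebra.mem_bot.1 (h ▸ Algebra.mem_top : x ∈ (⊥ : Subalgebra S Q))
    exact hx k hk.symm
  refine good_of_two hbt fun T hT => ?_
  obtain ⟨t, htT, ht⟩ : ∃ t ∈ T, t ∉ (⊥ : Subalgebra S Q) := by
    by_contra hno
    push Not at hno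
    exact hT (le_bot_iff.1 hno)
  obtain ⟨k, hk⟩ := hmin K hK t
  -- an element of `K` in `T`
  obtain ⟨i, hi⟩ : ∃ i, i = t - algebraMap S Q k := ⟨_, rfl⟩
  have hiK : i ∈ K := hi ▸ hk
  have hiT : i ∈ T := hi ▸ T.sub_mem htT (T.algebraMap_mem k)
  have hi0 : i ≠ 0 := by
    intro h
    apply ht
    rw [h] at hi
    exact Algebra.mem_bot.2 ⟨k, (sub_eq_zero.1 hi.symm).symm⟩
  have hmul : ∀ x : Q, ∃ l : S, x * i = l • i ∧ i * x = l • i := by
    intro x
    obtain ⟨l, hl⟩ := hmin N hN x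
    have h1 := hKN i hiK _ hl
    refine ⟨l, ?_, ?_⟩
    · have h2 := h1.2
      rw [sub_mul, ← Algebra.smul_def, sub_eq_zero] at h2
      exact h2
    · have h2 := h1.1
      rw [mul_sub, ← Algebra.commutes, ← Algebra.smul_def, sub_eq_zero] at h2
      exact h2
  let I : TwoSidedIdeal Q := TwoSidedIdeal.mk' {x | ∃ l : S, x = l • i} ⟨0, by rw [zero_smul]⟩
    (by
      rintro x y ⟨l, rfl⟩ ⟨m, rfl⟩
      exact ⟨l + m, by rw [add_smul]⟩)
    (by
      rintro x ⟨l, rfl⟩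
      exact ⟨-l, by rw [neg_smul]⟩)
    (by
      rintro x y ⟨l, rfl⟩
      obtain ⟨m, hm, -⟩ := hmul x
      exact ⟨l * m, by rw [mul_smul_comm, hm, mul_smul]⟩)
    (by
      rintro x y ⟨l, rfl⟩
      obtain ⟨m, -, hm⟩ := hmul y
      exact ⟨l * m, by rw [smul_mul_assoc, hm, mul_smul]⟩)
  have hI : ∀ x, x ∈ I ↔ ∃ l : S, x = l • i := fun x => TwoSidedIdeal.mem_mk' _ _ _ _ _ _ x
  have hI0 : I ≠ ⊥ := by
    intro h
    have h1 : i ∈ I := (hI i).2 ⟨1, by rw [one_smul]⟩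
    rw [h] at h1
    exact hi0 ((TwoSidedIdeal.mem_bot _).1 h1)
  rw [eq_top_iff]
  intro x _
  obtain ⟨l, hl⟩ := hmin I hI0 x
  obtain ⟨m, hm⟩ := (hI _).1 hl
  have h1 : x = m • i + algebraMap S Q l := by rw [← hm]; abel
  rw [h1]
  exact T.add_mem (T.smul_mem hiT m) (T.algebraMap_mem l)

end Pool.Agent.Helper29.SubLat
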