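import Pool.Agent.Helper29.SubLat.Simple

/-!
# Non-unital algebras
-/

set_option autoImplicit false

namespace Pool.Agent.Helper29.SubLat

universe u v

/-- the subalgebras of the unitization are the subalgebras of the algebra -/
def unitizationIso (S S' R : Type*) [CommRing S] [CommRing S'] [NonUnitalRing R]
    [Module S R] [Module S' R] [IsScalarTower S' R R] [SMulCommClass S' R R] [Algebra S S']
    [IsScalarTower S S' R] (hS : Function.Surjective (algebraMap S S')) :
    Subalgebra S (Unitization S' R) ≃o NonUnitalSubalgebra S R where
  toFun T :=
    { carrier := {r | (Unitization.inr r : Unitization S' R) ∈ T}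
      add_mem' := by
        intro a b ha hb
        change (Unitization.inr (a + b) : Unitization S' R) ∈ T
        rw [Unitization.inr_add]
        exact T.add_mem ha hb
      zero_mem' := by
        change (Unitization.inr 0 : Unitization S' R) ∈ T
        rw [Unitization.inr_zero]
        exact T.zero_mem
      mul_mem' := by
        intro a b ha hb
        change (Unitization.inr (a * b) : Unitization S' R) ∈ T
        rw [Unitization.inr_mul]
        exact T.mul_mem ha hb
      smul_mem' := by
        intro c a ha
        change (Unitization.inr (c • a) : Unitization S' R) ∈ T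
        rw [Unitization.inr_smul]
        exact T.smul_mem ha c }
  invFun H :=
    { carrier := {x | x.snd ∈ H}
      mul_mem' := by
        intro a b ha hb
        change (a * b).snd ∈ H
        rw [Unitization.snd_mul]
        obtain ⟨s, hs⟩ := hS a.fst
        obtain ⟨t, ht⟩ := hS b.fst
        rw [← hs, ← ht, algebraMap_smul, algebraMap_smul]
        exact H.add_mem (H.add_mem (H.smul_mem' s hb) (H.smul_mem' t ha)) (H.mul_mem ha hb)
      add_mem' := by
        intro a b ha hb
        change (a + b).snd ∈ H
        rw [Unitization.snd_add]
        exact H.add_mem ha hb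
      algebraMap_mem' := by
        intro r
        change (algebraMap S (Unitization S' R) r).snd ∈ H
        rw [Unitization.algebraMap_eq_inl_comp, Function.comp_apply, Unitization.snd_inl]
        exact H.zero_mem }
  left_inv T := by
    ext x
    change (Unitization.inr x.snd : Unitization S' R) ∈ T ↔ x ∈ T
    obtain ⟨s, hs⟩ := hS x.fst
    have h1 : x = algebraMap S (Unitization S' R) s + Unitization.inr x.snd := by
      rw [Unitization.algebraMap_eq_inl_comp, Function.comp_apply, hs]
      exact (Unitization.inl_fst_add_inr_snd_eq x).symm
    constructor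
    · intro h
      rw [h1]
      exact T.add_mem (T.algebraMap_mem s) h
    · intro h
      have h2 : (Unitization.inr x.snd : Unitization S' R) =
          x - algebraMap S (Unitization S' R) s := by
        rw [eq_sub_iff_add_eq, add_comm]; exact h1.symm
      rw [h2]
      exact T.sub_mem h (T.algebraMap_mem s)
  right_inv H := by
    ext x
    change (Unitization.inr x : Unitization S' R).snd ∈ H ↔ x ∈ H
    rw [Unitization.snd_inr]
  map_rel_iff' := by
    intro T T'
    constructor
    · intro h x hx
      obtain ⟨s, hs⟩ := hS x.fst
      have h1 : x = algebraMap S (Unitization S' R) s + Unitization.inr x.snd := by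
        rw [Unitization.algebraMap_eq_inl_comp, Function.comp_apply, hs]
        exact (Unitization.inl_fst_add_inr_snd_eq x).symm
      have h2 : (Unitization.inr x.snd : Unitization S' R) ∈ T := by
        have h2 : (Unitization.inr x.snd : Unitization S' R) =
            x - algebraMap S (Unitization S' R) s := by
          rw [eq_sub_iff_add_eq, add_comm]; exact h1.symm
        rw [h2]
        exact T.sub_mem hx (T.algebraMap_mem s)
      have h3 : (Unitization.inr x.snd : Unitization S' R) ∈ T' := h h2
      rw [h1]
      exact T'.add_mem (T'.algebraMap_mem s) h3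
    · intro h x hx
      exact h hx

/-- the lattice of the subalgebras of a finite algebra without unit is the lattice of the
subalgebras of a finite unital algebra -/
theorem exists_unital (S : Type v) (R : Type u) [CommRing S] [NonUnitalRing R] [Module S R]
    [IsScalarTower S R R] [SMulCommClass S R R] [Finite R] :
    ∃ (A : Type (max u v)) (_ : Ring A) (_ : Algebra S A) (_ : Finite A)
      (_ : Subalgebra S A ≃o NonUnitalSubalgebra S R),
      Nontrivial R → ∃ x : A, ∀ k : S, x ≠ algebraMap S A k := by
  classical
  let S' := S ⧸ Module.annihilator S R
  let _ : Module S' R := Module.quotientAnnihilator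
  have hmk : ∀ (s : S) (r : R), (Ideal.Quotient.mk (Module.annihilator S R) s : S') • r = s • r :=
    fun s r => rfl
  have hmk' : ∀ s' : S', ∃ s : S, Ideal.Quotient.mk (Module.annihilator S R) s = s' :=
    Ideal.Quotient.mk_surjective
  have h1 : IsScalarTower S' R R := ⟨fun s' x y => by
    obtain ⟨s, rfl⟩ := hmk' s'
    rw [hmk, hmk, smul_eq_mul, smul_eq_mul, smul_mul_assoc]⟩
  have h2 : SMulCommClass S' R R := ⟨fun s' x y => by
    obtain ⟨s, rfl⟩ := hmk' s'
    rw [hmk, hmk, smul_eq_mul, smul_eq_mul, mul_smul_comm]⟩
  have h3 : IsScalarTower S S' R := ⟨fun s s' x => by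
    obtain ⟨t, rfl⟩ := hmk' s'
    rw [hmk, ← mul_smul]
    exact hmk (s * t) x⟩
  have hfin : Finite S' := by
    refine Finite.of_injective (fun (s : S') (r : R) => s • r) ?_
    intro a b hab
    obtain ⟨s, rfl⟩ := hmk' a
    obtain ⟨t, rfl⟩ := hmk' b
    rw [Ideal.Quotient.eq, Module.mem_annihilator]
    intro m
    have := congrFun hab m
    change s • m = t • m at this
    rw [sub_smul, this, sub_self]
  have hfinA : Finite (Unitization S' R) :=
    Finite.of_injective (fun x : Unitization S' R => (x.fst, x.snd)) (by
      intro x y h
      exact Unitization.ext (congrArg Prod.fst h) (congrArg Prod.snd h))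
  have hsurj : Function.Surjective (algebraMap S S') := Ideal.Quotient.mk_surjective
  refine ⟨Unitization S' R, inferInstance, inferInstance, hfinA,
    unitizationIso S S' R hsurj, fun hR => ?_⟩
  obtain ⟨r, hr⟩ := exists_ne (0 : R)
  refine ⟨Unitization.inr r, fun k hk => hr ?_⟩
  have h4 : (Unitization.inr r : Unitization S' R).snd =
      (algebraMap S (Unitization S' R) k).snd := by rw [hk]
  rw [Unitization.snd_inr, Unitization.algebraMap_eq_inl_comp, Function.comp_apply,
    Unitization.snd_inl] at h4
  exact h4

theorem finite_nonUnitalSubalgebra (S R : Type*) [CommRing S] [NonUnitalRing R] [Module S R]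
    [Finite R] : Finite (NonUnitalSubalgebra S R) :=
  Finite.of_injective (fun H : NonUnitalSubalgebra S R => (H : Set R)) SetLike.coe_injective

theorem nonunital_count {S : Type v} {R : Type u} [CommRing S] [NonUnitalRing R] [Module S R]
    [IsScalarTower S R R] [SMulCommClass S R R] [Finite R] [hR : Nontrivial R] :
    ∃ j : NonUnitalSubalgebra S R, SupIrred j ∧
      2 * Nat.card {H : NonUnitalSubalgebra S R // j ≤ H} ≤ Nat.card (NonUnitalSubalgebra S R) := by
  obtain ⟨A, _, _, _, e, hA⟩ := exists_unital S R
  have := finite_subalgebra S A
  exact count_map e (good_subalgebra (hA hR)).count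

end Pool.Agent.Helper29.SubLat
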