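import Pool.Agent.Helper29.SubLat.Main

/-!
# Subalgebra lattices of finite algebras: the simple case
-/

set_option autoImplicit false

namespace Pool.Agent.Helper29.SubLat

open Pool.Agent.Y396.Frankl

universe u v

/-- every nonzero ideal has zero annihilator: the ring is a matrix ring over a finite field -/
theorem exists_matrix {S : Type v} {Q : Type u} [CommRing S] [Ring Q] [Algebra S Q] [Finite Q]
    [Nontrivial Q]
    (hmin : ∀ L : TwoSidedIdeal Q, L ≠ ⊥ → ∀ x : Q, ∃ k : S, x - algebraMap S Q k ∈ L)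
    (hann : ∀ K N : TwoSidedIdeal Q, K ≠ ⊥ → N ≠ ⊥ →
      ∃ x ∈ K, ∃ y ∈ N, ¬ (x * y = 0 ∧ y * x = 0)) :
    ∃ (n : ℕ) (_ : NeZero n) (F : Type u) (_ : Field F) (_ : Finite F),
      Nonempty (Q ≃+* Matrix (Fin n) (Fin n) F) := by
  classical
  have hfinT : Finite (TwoSidedIdeal Q) :=
    Finite.of_injective (fun H : TwoSidedIdeal Q => (H : Set Q)) SetLike.coe_injective
  -- a minimal nonzero ideal
  obtain ⟨K, hK0, hKmin⟩ : ∃ K : TwoSidedIdeal Q, K ≠ ⊥ ∧ ∀ L : TwoSidedIdeal Q, L ≠ ⊥ → L ≤ K →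
      L = K := by
    obtain ⟨K, hK, hmin'⟩ := Set.exists_min_image {L : TwoSidedIdeal Q | L ≠ ⊥}
      (fun L => (L : Set Q).ncard) (Set.toFinite _) ⟨⊤, top_ne_bot⟩
    refine ⟨K, hK, fun L hL hLK => ?_⟩
    have h1 := Set.eq_of_subset_of_ncard_le (s := (L : Set Q)) (t := (K : Set Q)) hLK
      (hmin' L hL) (Set.toFinite _)
    exact SetLike.coe_injective h1
  have hKall := hmin K hK0
  -- small ideals
  have hsub : ∀ L : Submodule S Q, (∀ x ∈ L, x ∈ K) → (∀ z ∈ K, ∀ x ∈ L, z * x ∈ L ∧ x * z ∈ L) →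
      (∃ x ∈ L, x ≠ 0) → ∀ x ∈ K, x ∈ L := by
    intro L hLK hL hne
    have hideal : ∀ (x y : Q), y ∈ L → x * y ∈ L ∧ y * x ∈ L := by
      intro x y hy
      obtain ⟨k, hk⟩ := hKall x
      have h1 := hL _ hk y hy
      have h2 : x * y = (x - algebraMap S Q k) * y + k • y := by
        rw [sub_mul, Algebra.smul_def]; abel
      have h3 : y * x = y * (x - algebraMap S Q k) + k • y := by
        rw [mul_sub, Algebra.smul_def, ← Algebra.commutes k y]; abel
      rw [h2, h3]
      exact ⟨L.add_mem h1.1 (L.smul_mem k hy), L.add_mem h1.2 (L.smul_mem k hy)⟩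
    let T : TwoSidedIdeal Q := TwoSidedIdeal.mk' (L : Set Q) L.zero_mem
      (fun {x y} hx hy => L.add_mem hx hy) (fun {x} hx => L.neg_mem hx)
      (fun {x y} hy => (hideal x y hy).1) (fun {x y} hx => (hideal y x hx).2)
    have hT : ∀ x, x ∈ T ↔ x ∈ L := fun x => TwoSidedIdeal.mem_mk' (L : Set Q) _ _ _ _ _ x
    have h4 : T = K := by
      apply hKmin
      · intro h
        obtain ⟨x, hx, hx0⟩ := hne
        have := (hT x).2 hx
        rw [h] at this
        exact hx0 ((TwoSidedIdeal.mem_bot _).1 this)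
      · intro x hx
        exact hLK x ((hT x).1 hx)
    intro x hx
    rw [← h4] at hx
    exact (hT x).1 hx
  have hKs : ∀ (s : S) (x : Q), x ∈ K → s • x ∈ K := by
    intro s x hx
    rw [Algebra.smul_def]
    exact K.mul_mem_left _ _ hx
  obtain ⟨x₀, hx₀, y₀, hy₀, hxy₀⟩ : ∃ x ∈ K, ∃ y ∈ K, x * y ≠ 0 := by
    obtain ⟨x, hx, y, hy, hxy⟩ := hann K K hK0 hK0
    by_cases h : x * y = 0
    · exact ⟨y, hy, x, hx, fun h' => hxy ⟨h, h'⟩⟩
    · exact ⟨x, hx, y, hy, h⟩
  -- `K` as a non-unital algebra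
  let K' : NonUnitalSubalgebra S Q :=
    { carrier := {x | x ∈ K}
      add_mem' := fun {x y} hx hy => K.add_mem hx hy
      zero_mem' := K.zero_mem
      smul_mem' := fun s {x} hx => hKs s x hx
      mul_mem' := fun {x y} _ hy => K.mul_mem_left x y hy }
  have : Nontrivial K' := ⟨⟨⟨x₀, hx₀⟩, 0, fun h => hxy₀ (by
    have h1 : x₀ = 0 := congrArg Subtype.val h
    rw [h1, zero_mul])⟩⟩
  have h2 : AddSubgroup.closure {z : K' | ∃ x y, x * y = z} = ⊤ := by
    let N : Submodule S K' :=
      { AddSubgroup.closure {z : K' | ∃ x y, x * y = z} with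
        smul_mem' := fun s {x} hx => smul_mem_products S s x hx }
    have hN : ∀ x : K', x ∈ N ↔ x ∈ AddSubgroup.closure {z : K' | ∃ x y, x * y = z} :=
      fun x => Iff.rfl
    have h3 := hsub (N.map (K'.toSubmodule.subtype))
      (by
        rintro x ⟨y, _, rfl⟩
        exact y.2)
      (by
        rintro z hz x ⟨y, hy, rfl⟩
        have h4 : ∀ y : K', (⟨z, hz⟩ : K') * y ∈ N ∧ y * (⟨z, hz⟩ : K') ∈ N :=
          fun y => ⟨(hN _).2 (AddSubgroup.subset_closure ⟨_, _, rfl⟩),
            (hN _).2 (AddSubgroup.subset_closure ⟨_, _, rfl⟩)⟩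
        exact ⟨⟨_, (h4 y).1, rfl⟩, ⟨_, (h4 y).2, rfl⟩⟩)
      ⟨x₀ * y₀, ⟨(⟨x₀, hx₀⟩ : K') * ⟨y₀, hy₀⟩,
        (hN _).2 (AddSubgroup.subset_closure ⟨_, _, rfl⟩), rfl⟩, hxy₀⟩
    rw [AddSubgroup.eq_top_iff']
    intro x
    obtain ⟨y, hy, hyx⟩ := h3 x.1 x.2
    have : y = x := Subtype.ext hyx
    rw [← this]
    exact hy
  obtain ⟨n, hn, F, _, _, π, hπ⟩ := exists_onto h2
  -- `π` is injective
  have hinj : ∀ z : K', π z = 0 → z = 0 := by
    by_contra hno
    push Not at hno
    obtain ⟨z, hz, hz0⟩ := hno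
    have h5 := hsub
      { carrier := {x | ∃ y : K', π y = 0 ∧ y.1 = x}
        add_mem' := by
          rintro x y ⟨x', hx', rfl⟩ ⟨y', hy', rfl⟩
          exact ⟨x' + y', by rw [map_add, hx', hy', add_zero], rfl⟩
        zero_mem' := ⟨0, map_zero π, rfl⟩
        smul_mem' := by
          rintro s x ⟨x', hx', rfl⟩
          exact ⟨s • x', smul_mem_ker S π hπ s x' hx', rfl⟩ }
      (by
        rintro x ⟨y, _, rfl⟩
        exact y.2)
      (by
        rintro z hz x ⟨y, hy, rfl⟩
        exact ⟨⟨⟨z, hz⟩ * y, by rw [map_mul, hy, mul_zero], rfl⟩,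
          ⟨y * ⟨z, hz⟩, by rw [map_mul, hy, zero_mul], rfl⟩⟩)
      ⟨z.1, ⟨z, hz, rfl⟩, fun h => hz0 (Subtype.ext h)⟩
    obtain ⟨a, ha⟩ := hπ 1
    obtain ⟨y, hy, hya⟩ := h5 a.1 a.2
    have h6 : y = a := Subtype.ext hya
    rw [h6, ha] at hy
    exact one_ne_zero hy
  have hinj' : Function.Injective π := by
    intro x y hxy
    exact sub_eq_zero.1 (hinj _ (by rw [map_sub, hxy, sub_self]))
  -- the identity of `K`
  obtain ⟨e, he⟩ := hπ 1
  have he1 : ∀ z : K', e * z = z := fun z => hinj' (by rw [map_mul, he, one_mul])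
  have he2 : ∀ z : K', z * e = z := fun z => hinj' (by rw [map_mul, he, mul_one])
  have hall : ∀ x : Q, x ∈ K := by
    intro x
    by_contra hxK
    -- the ideal of the elements killed by `K`
    let N : TwoSidedIdeal Q := TwoSidedIdeal.mk' {x | ∀ y ∈ K, y * x = 0 ∧ x * y = 0}
      (by intro y _; rw [mul_zero, zero_mul]; exact ⟨rfl, rfl⟩)
      (by
        intro x y hx hy z hz
        rw [mul_add, add_mul, (hx z hz).1, (hx z hz).2, (hy z hz).1, (hy z hz).2, add_zero]
        exact ⟨rfl, rfl⟩)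
      (by
        intro x hx z hz
        rw [mul_neg, neg_mul, (hx z hz).1, (hx z hz).2, neg_zero]
        exact ⟨rfl, rfl⟩)
      (by
        intro x y hy z hz
        rw [← mul_assoc, (hy _ (K.mul_mem_right _ _ hz)).1, mul_assoc, (hy z hz).2, mul_zero]
        exact ⟨rfl, rfl⟩)
      (by
        intro x y hx z hz
        rw [← mul_assoc, (hx z hz).1, zero_mul, mul_assoc, (hx _ (K.mul_mem_left _ _ hz)).2]
        exact ⟨rfl, rfl⟩)
    have hN : ∀ x, x ∈ N ↔ ∀ y ∈ K, y * x = 0 ∧ x * y = 0 :=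
      fun x => TwoSidedIdeal.mem_mk' _ _ _ _ _ _ x
    have hN0 : N ≠ ⊥ := by
      intro h
      have h1 : x - x * e.1 ∈ N := by
        rw [hN]
        intro y hy
        have h3 : y * x ∈ K := K.mul_mem_right _ _ hy
        have h4 : (y * x) * e.1 = y * x := congrArg Subtype.val (he2 ⟨y * x, h3⟩)
        have h5 : e.1 * y = y := congrArg Subtype.val (he1 ⟨y, hy⟩)
        constructor
        · rw [mul_sub, ← mul_assoc, h4, sub_self]
        · rw [sub_mul, mul_assoc, h5, sub_self]
      rw [h] at h1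
      have h2 := (TwoSidedIdeal.mem_bot _).1 h1
      apply hxK
      rw [sub_eq_zero.1 h2]
      exact K.mul_mem_left _ _ e.2
    obtain ⟨y, hy, z, hz, hyz⟩ := hann K N hK0 hN0
    exact hyz ((hN z).1 hz y hy)
  let ψ : Q →ₙ+* Matrix (Fin n) (Fin n) F :=
    { toFun := fun x => π ⟨x, hall x⟩
      map_mul' := fun x y => by rw [← map_mul]; rfl
      map_zero' := by
        have : (⟨0, hall 0⟩ : K') = 0 := rfl
        rw [this, map_zero]
      map_add' := fun x y => by rw [← map_add]; rfl }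
  have hψ : Function.Bijective ψ := by
    constructor
    · intro x y hxy
      exact congrArg Subtype.val (hinj' hxy)
    · intro m
      obtain ⟨z, hz⟩ := hπ m
      exact ⟨z.1, hz⟩
  exact ⟨n, hn, F, _, ‹_›, ⟨RingEquiv.ofBijective ψ hψ⟩⟩

/-- a scalar is zero or has a scalar inverse -/
theorem scalar_inv {S : Type v} {Q : Type u} [CommRing S] [Ring Q] [Algebra S Q] [Finite Q]
    (hann : ∀ K N : TwoSidedIdeal Q, K ≠ ⊥ → N ≠ ⊥ →
      ∃ x ∈ K, ∃ y ∈ N, ¬ (x * y = 0 ∧ y * x = 0)) (k : S) :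
    algebraMap S Q k = 0 ∨ ∃ l : S, algebraMap S Q (k * l) = 1 := by
  by_cases h0 : algebraMap S Q k = 0
  · left; exact h0
  right
  -- multiplication by `k` is injective
  have hinj : Function.Injective (fun x : Q => algebraMap S Q k * x) := by
    have hker : ∀ x : Q, algebraMap S Q k * x = 0 → x = 0 := by
      by_contra hno
      push Not at hno
      obtain ⟨x, hx, hx0⟩ := hno
      let L : TwoSidedIdeal Q := TwoSidedIdeal.mk' {x | algebraMap S Q k * x = 0}
        (mul_zero _)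
        (by
          intro x y hx hy
          change _ * (x + y) = 0
          rw [mul_add, (hx : _ = _), (hy : _ = _), add_zero])
        (by
          intro x hx
          change _ * (-x) = 0
          rw [mul_neg, (hx : _ = _), neg_zero])
        (by
          intro x y hy
          change _ * (x * y) = 0
          rw [← mul_assoc, Algebra.commutes, mul_assoc, (hy : _ = _), mul_zero])
        (by
          intro x y hx
          change _ * (x * y) = 0
          rw [← mul_assoc, (hx : _ = _), zero_mul])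
      have hL : ∀ x, x ∈ L ↔ algebraMap S Q k * x = 0 :=
        fun x => TwoSidedIdeal.mem_mk' _ _ _ _ _ _ x
      have hL0 : L ≠ ⊥ := by
        intro h
        have h1 : x ∈ L := (hL x).2 hx
        rw [h] at h1
        exact hx0 ((TwoSidedIdeal.mem_bot _).1 h1)
      let N : TwoSidedIdeal Q := TwoSidedIdeal.mk' {x | ∃ y : Q, x = algebraMap S Q k * y}
        ⟨0, (mul_zero _).symm⟩
        (by
          rintro x y ⟨x', rfl⟩ ⟨y', rfl⟩
          exact ⟨x' + y', by rw [mul_add]⟩)
        (by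
          rintro x ⟨x', rfl⟩
          exact ⟨-x', by rw [mul_neg]⟩)
        (by
          rintro x y ⟨y', rfl⟩
          exact ⟨x * y', by rw [← mul_assoc, ← mul_assoc, Algebra.commutes]⟩)
        (by
          rintro x y ⟨x', rfl⟩
          exact ⟨x' * y, by rw [mul_assoc]⟩)
      have hN : ∀ x, x ∈ N ↔ ∃ y : Q, x = algebraMap S Q k * y :=
        fun x => TwoSidedIdeal.mem_mk' _ _ _ _ _ _ x
      have hN0 : N ≠ ⊥ := by
        intro h
        have h1 : algebraMap S Q k ∈ N := (hN _).2 ⟨1, (mul_one _).symm⟩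
        rw [h] at h1
        exact h0 ((TwoSidedIdeal.mem_bot _).1 h1)
      obtain ⟨y, hy, z, hz, hyz⟩ := hann L N hL0 hN0
      apply hyz
      obtain ⟨w, rfl⟩ := (hN z).1 hz
      have hy' := (hL y).1 hy
      constructor
      · rw [← mul_assoc, ← Algebra.commutes, hy', zero_mul]
      · rw [mul_assoc]
        have h3 : w * y ∈ L := L.mul_mem_left _ _ hy
        exact (hL _).1 h3
    intro x y hxy
    have hxy' : algebraMap S Q k * x = algebraMap S Q k * y := hxy
    exact sub_eq_zero.1 (hker _ (by rw [mul_sub, hxy', sub_self]))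
  obtain ⟨m, hm0, hm⟩ : ∃ m : ℕ, 0 < m ∧ algebraMap S Q k ^ m = 1 := by
    obtain ⟨a, b, hab, h⟩ := Finite.exists_ne_map_eq_of_infinite
      (fun m : ℕ => algebraMap S Q k ^ m)
    wlog hlt : a < b generalizing a b
    · exact this b a hab.symm h.symm (by omega)
    refine ⟨b - a, by omega, ?_⟩
    have h1 : ∀ c : ℕ, Function.Injective (fun x : Q => algebraMap S Q k ^ c * x) := by
      intro c
      induction c with
      | zero => intro x y hxy; simpa using hxy
      | succ c ih =>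
        intro x y hxy
        apply ih
        apply hinj
        change algebraMap S Q k * (algebraMap S Q k ^ c * x) =
          algebraMap S Q k * (algebraMap S Q k ^ c * y)
        rw [← mul_assoc, ← mul_assoc, ← pow_succ']
        exact hxy
    apply h1 a
    change algebraMap S Q k ^ a * algebraMap S Q k ^ (b - a) = algebraMap S Q k ^ a * 1
    rw [← pow_add, mul_one, show a + (b - a) = b by omega]
    exact h.symm
  refine ⟨k ^ (m - 1), ?_⟩
  rw [map_mul, map_pow, ← pow_succ', show m - 1 + 1 = m by omega, hm]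

/-- the simple case -/
theorem good_case_two {S : Type v} {Q : Type u} [CommRing S] [Ring Q] [Algebra S Q] [Finite Q]
    (h0 : ∃ x : Q, ∀ k : S, x ≠ algebraMap S Q k)
    (hmin : ∀ L : TwoSidedIdeal Q, L ≠ ⊥ → ∀ x : Q, ∃ k : S, x - algebraMap S Q k ∈ L)
    (hann : ∀ K N : TwoSidedIdeal Q, K ≠ ⊥ → N ≠ ⊥ →
      ∃ x ∈ K, ∃ y ∈ N, ¬ (x * y = 0 ∧ y * x = 0)) : Good (Subalgebra S Q) := by
  have hnt : Nontrivial Q := by
    obtain ⟨x, hx⟩ := h0
    exact ⟨⟨x, 0, fun h => hx 0 (by rw [h]; simp)⟩⟩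
  have hbt : (⊥ : Subalgebra S Q) ≠ ⊤ := by
    intro h
    obtain ⟨x, hx⟩ := h0
    obtain ⟨k, hk⟩ := Algebra.mem_bot.1 (h ▸ Algebra.mem_top : x ∈ (⊥ : Subalgebra S Q))
    exact hx k hk.symm
  have hS := scalar_inv (S := S) hann
  obtain ⟨n, hn, F, _, _, ⟨ψ⟩⟩ := exists_matrix hmin hann
  obtain ⟨m, rfl⟩ := Nat.exists_eq_succ_of_ne_zero (NeZero.ne n)
  rcases m with _ | m
  · -- a field
    have h1 : IsField Q := ((ψ.trans Matrix.uniqueRingEquiv).toMulEquiv).isField
      (Field.toIsField F)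
    let _ : Field Q := h1.toField
    exact good_field (F := Q) hbt
  · obtain ⟨a', b', ha', hb', hna', hnb', hgen⟩ := exists_nil_gen (n := m) (F := F)
    obtain ⟨a, rfl⟩ := ψ.surjective a'
    obtain ⟨b, rfl⟩ := ψ.surjective b'
    have ha0 : a ≠ 0 := fun h => ha' (by rw [h, map_zero])
    have hb0 : b ≠ 0 := fun h => hb' (by rw [h, map_zero])
    have hna : IsNilpotent a := by
      obtain ⟨r, hr⟩ := hna'
      exact ⟨r, ψ.injective (by rw [map_pow, hr, map_zero])⟩
    have hnb : IsNilpotent b := by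
      obtain ⟨r, hr⟩ := hnb'
      exact ⟨r, ψ.injective (by rw [map_pow, hr, map_zero])⟩
    have hX := supIrred_adjoin hS ha0 hna
    have hY := supIrred_adjoin hS hb0 hnb
    have htop : ∀ T : Subalgebra S Q, Algebra.adjoin S {a} ≤ T → Algebra.adjoin S {b} ≤ T →
        T = ⊤ := by
      intro T hTa hTb
      have h1 := hgen
        { carrier := {y | ∃ x ∈ T, ψ x = y}
          add_mem' := by
            rintro _ _ ⟨x, hx, rfl⟩ ⟨y, hy, rfl⟩
            exact ⟨x + y, T.add_mem hx hy, map_add _ _ _⟩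
          zero_mem' := ⟨0, T.zero_mem, map_zero _⟩
          neg_mem' := by
            rintro _ ⟨x, hx, rfl⟩
            exact ⟨-x, T.neg_mem hx, map_neg _ _⟩
          mul_mem' := by
            rintro _ _ ⟨x, hx, rfl⟩ ⟨y, hy, rfl⟩
            exact ⟨x * y, T.mul_mem hx hy, map_mul _ _ _⟩ }
        ⟨a, hTa (Algebra.subset_adjoin rfl), rfl⟩ ⟨b, hTb (Algebra.subset_adjoin rfl), rfl⟩
      rw [eq_top_iff]
      intro x _
      have h2 : ψ x ∈ (⊤ : NonUnitalSubring (Matrix (Fin (m + 2)) (Fin (m + 2)) F)) := trivial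
      rw [← h1] at h2
      obtain ⟨y, hy, hyx⟩ := h2
      rw [← ψ.injective hyx]
      exact hy
    refine ⟨_, _, hX, hY, fun T hTX hTY => ⟨⊥, bot_le, fun h => ?_, fun h => ?_, ?_⟩⟩
    · exact hX.1 (fun z _ => h.trans bot_le)
    · exact hY.1 (fun z _ => h.trans bot_le)
    · rw [bot_sup_eq, htop (Algebra.adjoin S {a} ⊔ Algebra.adjoin S {b}) le_sup_left le_sup_right]
      exact le_top

/-- the minimal quotients -/
theorem good_of_minimal {S : Type v} {Q : Type u} [CommRing S] [Ring Q] [Algebra S Q] [Finite Q]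
    (h0 : ∃ x : Q, ∀ k : S, x ≠ algebraMap S Q k)
    (hmin : ∀ L : TwoSidedIdeal Q, L ≠ ⊥ → ∀ x : Q, ∃ k : S, x - algebraMap S Q k ∈ L) :
    Good (Subalgebra S Q) := by
  by_cases h : ∃ K N : TwoSidedIdeal Q, K ≠ ⊥ ∧ N ≠ ⊥ ∧ ∀ x ∈ K, ∀ y ∈ N, x * y = 0 ∧ y * x = 0
  · obtain ⟨K, N, hK, hN, hKN⟩ := h
    exact good_case_one h0 hmin K N hK hN hKN
  · refine good_case_two h0 hmin fun K N hK hN => ?_
    by_contra hno
    apply h
    refine ⟨K, N, hK, hN, fun x hx y hy => ?_⟩
    by_contra h1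
    exact hno ⟨x, hx, y, hy, h1⟩

/-- **Subalgebra lattices of finite unital algebras.** -/
theorem good_subalgebra {S : Type v} {R : Type u} [CommRing S] [Ring R] [Algebra S R] [Finite R]
    (h0 : ∃ x : R, ∀ k : S, x ≠ algebraMap S R k) : Good (Subalgebra S R) := by
  classical
  have hfinT : Finite (TwoSidedIdeal R) :=
    Finite.of_injective (fun H : TwoSidedIdeal R => (H : Set R)) SetLike.coe_injective
  -- an ideal that is maximal such that `R / I` is not generated by `1`
  obtain ⟨I, hI, hImax⟩ := Set.exists_max_image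
    {L : TwoSidedIdeal R | ∃ x : R, ∀ k : S, x - algebraMap S R k ∉ L}
    (fun L => (L : Set R).ncard) (Set.toFinite _) (by
      obtain ⟨x, hx⟩ := h0
      refine ⟨⊥, x, fun k hk => hx k ?_⟩
      exact sub_eq_zero.1 ((TwoSidedIdeal.mem_bot _).1 hk))
  obtain ⟨x₀, hx₀⟩ := hI
  let Q := I.ringCon.Quotient
  let q : R →+* Q := I.ringCon.mk'
  have hq : Function.Surjective q := I.ringCon.mk'_surjective
  have hqker : ∀ x : R, q x = 0 ↔ x ∈ I := by
    intro x
    rw [TwoSidedIdeal.mem_iff]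
    change I.ringCon.mk' x = 0 ↔ _
    rw [← map_zero I.ringCon.mk']
    exact Quotient.eq (r := I.ringCon.toSetoid)
  have hfinQ : Finite Q := Finite.of_surjective q hq
  let _ : Algebra S Q := (q.comp (algebraMap S R)).toAlgebra' (by
    intro c x
    obtain ⟨y, rfl⟩ := hq x
    rw [RingHom.comp_apply, ← map_mul, ← map_mul, Algebra.commutes])
  have hqs : ∀ s : S, algebraMap S Q s = q (algebraMap S R s) := fun s => rfl
  have hgood : Good (Subalgebra S Q) := good_of_minimal (S := S) (Q := Q)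
    ⟨q x₀, fun k hk => hx₀ k (by
      rw [← hqker, map_sub, ← hqs, hk, sub_self])⟩
    (by
      intro L hL x
      obtain ⟨y, rfl⟩ := hq x
      -- the preimage of `L`
      let L' : TwoSidedIdeal R := L.comap q
      have hL' : ∀ z, z ∈ L' ↔ q z ∈ L := fun z => TwoSidedIdeal.mem_comap q
      by_contra hno
      push Not at hno
      have h1 : L' ∈ {L : TwoSidedIdeal R | ∃ x : R, ∀ k : S, x - algebraMap S R k ∉ L} := by
        refine ⟨y, fun k hk => hno k ?_⟩
        rw [hL', map_sub] at hk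
        exact hk
      have h2 : (I : Set R) ⊆ (L' : Set R) := by
        intro z hz
        have h3 : q z = 0 := (hqker z).2 hz
        change z ∈ L'
        rw [hL', h3]
        exact L.zero_mem
      have h4 := Set.eq_of_subset_of_ncard_le h2 (hImax L' h1) (Set.toFinite _)
      apply hL
      rw [eq_bot_iff]
      intro z hz
      obtain ⟨w, rfl⟩ := hq z
      have h5 : w ∈ L' := (hL' w).2 hz
      have h6 : w ∈ I := by
        have h7 : w ∈ (L' : Set R) := h5
        rw [← h4] at h7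
        exact h7
      rw [TwoSidedIdeal.mem_bot]
      exact (hqker w).2 h6)
  let qa : R →ₐ[S] Q := { q with commutes' := fun s => rfl }
  exact good_lift qa hq hgood

end Pool.Agent.Helper29.SubLat
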