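import Pool.Agent.Helper29.SubLat.NonU

/-!
# The strict form: lattices
-/

set_option autoImplicit false

namespace Pool.Agent.Helper29.SubLat

/-- data of the two-element criterion with a fixed element `B` -/
def Good2 (L : Type*) [Lattice L] (B : L) : Prop :=
  ∃ X Y : L, SupIrred X ∧ SupIrred Y ∧ ¬ X ≤ B ∧ ¬ Y ≤ B ∧
    (∀ T : L, X ≤ T → Y ≤ T → T ≤ (T ⊓ B) ⊔ X ⊔ Y) ∧
    (X = Y ∨ ∃ H, ¬ X ≤ H ∧ ¬ Y ≤ H ∧ ¬ H ≤ B)

/-- some join-irreducible is below fewer than half of the elements -/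
def StrictF (L : Type*) [Lattice L] : Prop :=
  ∃ j : L, SupIrred j ∧ 2 * Nat.card {H : L // j ≤ H} < Nat.card L

/-- a finite Boolean lattice -/
def Boo (L : Type*) [Lattice L] : Prop := ∃ n : ℕ, Nonempty (L ≃o (Fin n → Bool))

/-- `L` is the product of the two-element lattice and `Iic B`, with `X` the further atom -/
structure Splits {L : Type*} [Lattice L] (X B : L) : Prop where
  not_le : ¬ X ≤ B
  or : ∀ H, X ≤ H ∨ H ≤ B
  le : ∀ T, X ≤ T → T ≤ (T ⊓ B) ⊔ X
  ex : ∀ H, H ≤ B → ∃ T, X ≤ T ∧ T ⊓ B = H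

theorem dich {L : Type*} [Lattice L] [Finite L] {B : L} (h : Good2 L B) :
    StrictF L ∨ ∃ X : L, Splits X B := by
  obtain ⟨X, Y, hX, hY, hXB, hYB, hT, hH⟩ := h
  have hinj : ∀ H K : L, X ≤ H → Y ≤ H → X ≤ K → Y ≤ K → H ⊓ B = K ⊓ B → H = K := by
    intro H K hXH hYH hXK hYK hHK
    apply le_antisymm
    · refine (hT H hXH hYH).trans (sup_le (sup_le ?_ hXK) hYK)
      rw [hHK]; exact inf_le_left
    · refine (hT K hXK hYK).trans (sup_le (sup_le ?_ hXH) hYH)
      rw [← hHK]; exact inf_le_left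
  have hf : ∀ H : L, X ≤ H → Y ≤ H → ¬ X ≤ H ⊓ B ∧ ¬ Y ≤ H ⊓ B := fun H _ _ =>
    ⟨fun h => hXB (h.trans inf_le_right), fun h => hYB (h.trans inf_le_right)⟩
  have hstrict : (∃ K, ¬ X ≤ K ∧ ¬ Y ≤ K ∧ ∀ H, X ≤ H → Y ≤ H → H ⊓ B ≠ K) → StrictF L := by
    intro hK
    rcases Pool.Agent.Y396.Frankl.crit_card_lt (𝓗 := L) (fun H => X ≤ H) (fun H => Y ≤ H)
      (fun H => H ⊓ B) hinj hf hK with h | h
    · exact ⟨X, hX, h⟩
    · exact ⟨Y, hY, h⟩
  rcases hH with hXY | ⟨H, h1, h2, h3⟩
  · subst hXY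
    by_cases hex : ∃ K, ¬ X ≤ K ∧ ¬ X ≤ K ∧ ∀ H, X ≤ H → X ≤ H → H ⊓ B ≠ K
    · left; exact hstrict hex
    · right
      push Not at hex
      refine ⟨X, hXB, fun H => ?_, fun T hXT => ?_, fun H hHB => ?_⟩
      · by_cases hXH : X ≤ H
        · left; exact hXH
        · right
          obtain ⟨T, _, _, h4⟩ := hex H hXH hXH
          rw [← h4]; exact inf_le_right
      · have := hT T hXT hXT
        rwa [sup_assoc, sup_idem] at this
      · have hXH : ¬ X ≤ H := fun h => hXB (h.trans hHB)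
        obtain ⟨T, h5, _, h4⟩ := hex H hXH hXH
        exact ⟨T, h5, h4⟩
  · left
    exact hstrict ⟨H, h1, h2, fun K _ _ h4 => h3 (h4 ▸ inf_le_right)⟩

/-- product with the two-element lattice -/
def prodIso {L L' : Type*} [Lattice L] [Lattice L'] (e : L ≃o L') : Bool × L ≃o Bool × L' where
  toEquiv := (Equiv.refl Bool).prodCongr e.toEquiv
  map_rel_iff' := by
    rintro ⟨a, x⟩ ⟨b, y⟩
    constructor
    · rintro ⟨h1, h2⟩
      exact ⟨h1, e.le_iff_le.1 h2⟩
    · rintro ⟨h1, h2⟩
      exact ⟨h1, e.le_iff_le.2 h2⟩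

open Classical in
/-- the product decomposition -/
noncomputable def Splits.iso {L : Type*} [Lattice L] {X B : L} (h : Splits X B) :
    L ≃o Bool × Set.Iic B where
  toFun H := (decide (X ≤ H), ⟨H ⊓ B, inf_le_right⟩)
  invFun p := if p.1 then p.2.1 ⊔ X else p.2.1
  left_inv H := by
    by_cases hX : X ≤ H
    · simp only [hX, decide_true, if_true]
      exact le_antisymm (sup_le inf_le_left hX) (h.le H hX)
    · have := (h.or H).resolve_left hX
      simp only [hX, decide_false]
      simpa using this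
  right_inv p := by
    obtain ⟨b, H, hH⟩ := p
    have hH' : H ≤ B := hH
    cases b
    · have hX : ¬ X ≤ H := fun h1 => h.not_le (h1.trans hH')
      ext1
      · simp [hX]
      · apply Subtype.ext
        simpa using hH'
    · obtain ⟨T, hXT, hT⟩ := h.ex H hH'
      have h1 : T = H ⊔ X := le_antisymm (hT ▸ h.le T hXT) (sup_le (hT ▸ inf_le_left) hXT)
      ext1
      · simp
      · apply Subtype.ext
        simp only [if_true]
        rw [← h1, hT]
  map_rel_iff' := by
    intro H K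
    constructor
    · intro hHK
      have h1 : X ≤ H → X ≤ K := by
        intro hX
        have := hHK.1
        change decide (X ≤ H) ≤ decide (X ≤ K) at this
        rw [decide_eq_true hX] at this
        by_contra hK
        rw [decide_eq_false hK] at this
        exact absurd this (by decide)
      have h2 : H ⊓ B ≤ K ⊓ B := hHK.2
      rcases h.or H with hX | hB
      · exact (h.le H hX).trans (sup_le (h2.trans inf_le_left) (h1 hX))
      · calc H = H ⊓ B := (inf_eq_left.2 hB).symm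
          _ ≤ K ⊓ B := h2
          _ ≤ K := inf_le_left
    · intro hHK
      constructor
      · change decide (X ≤ H) ≤ decide (X ≤ K)
        by_cases hX : X ≤ H
        · simp [hX, hX.trans hHK]
        · simp [hX]
      · change H ⊓ B ≤ K ⊓ B
        exact inf_le_inf_right _ hHK

theorem StrictF.map {L L' : Type*} [Lattice L] [Lattice L'] (e : L ≃o L') (h : StrictF L) :
    StrictF L' := by
  obtain ⟨j, hj, hc⟩ := h
  refine ⟨e j, supIrred_map e hj, ?_⟩
  have h1 : Nat.card {H : L // j ≤ H} = Nat.card {H : L' // e j ≤ H} :=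
    Nat.card_congr (e.toEquiv.subtypeEquiv (fun a => (e.le_iff_le (x := j) (y := a)).symm))
  have h2 : Nat.card L = Nat.card L' := Nat.card_congr e.toEquiv
  rw [← h1, ← h2]
  exact hc

theorem StrictF.prod {L : Type*} [Lattice L] [Finite L] (h : StrictF L) : StrictF (Bool × L) := by
  obtain ⟨j, hj, hc⟩ := h
  refine ⟨(false, j), ⟨?_, ?_⟩, ?_⟩
  · intro hm
    apply hj.1
    intro b hb
    have h1 : ((false, b) : Bool × L) ≤ (false, j) := ⟨le_rfl, hb⟩
    exact (hm h1).2
  · rintro ⟨b, x⟩ ⟨c, y⟩ hbc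
    have h1 : b ⊔ c = false := congrArg Prod.fst hbc
    have h2 : x ⊔ y = j := congrArg Prod.snd hbc
    have hb : b = false := by
      cases b
      · rfl
      · simp at h1
    have hc : c = false := by
      cases c
      · rfl
      · simp at h1
    rcases hj.2 h2 with h3 | h3
    · left; rw [hb, h3]
    · right; rw [hc, h3]
  · have h1 : Nat.card {H : Bool × L // ((false, j) : Bool × L) ≤ H} =
        2 * Nat.card {H : L // j ≤ H} := by
      have e : {H : Bool × L // ((false, j) : Bool × L) ≤ H} ≃ Bool × {H : L // j ≤ H} :=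
        { toFun := fun p => (p.1.1, ⟨p.1.2, p.2.2⟩)
          invFun := fun p => ⟨(p.1, p.2.1), ⟨Bool.false_le _, p.2.2⟩⟩
          left_inv := fun _ => rfl
          right_inv := fun _ => rfl }
      rw [Nat.card_congr e, Nat.card_prod]
      simp
    have h2 : Nat.card (Bool × L) = 2 * Nat.card L := by
      rw [Nat.card_prod]; simp
    rw [h1, h2]
    omega

theorem Boo.map {L L' : Type*} [Lattice L] [Lattice L'] (e : L ≃o L') (h : Boo L) : Boo L' := by
  obtain ⟨n, ⟨f⟩⟩ := h
  exact ⟨n, ⟨e.symm.trans f⟩⟩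

theorem Boo.prod {L : Type*} [Lattice L] (h : Boo L) : Boo (Bool × L) := by
  obtain ⟨n, ⟨f⟩⟩ := h
  refine ⟨n + 1, ⟨?_⟩⟩
  exact (prodIso f).trans (Fin.consOrderIso (fun _ : Fin (n + 1) => Bool))

theorem Boo.dual {L : Type*} [Lattice L] (h : Boo L) : Boo Lᵒᵈ := by
  obtain ⟨n, ⟨f⟩⟩ := h
  refine ⟨n, ⟨f.dual.trans ?_⟩⟩
  exact (OrderIso.compl (Fin n → Bool)).symm

/-- the two cases transfer from `Iic B` -/
theorem Splits.transfer {L : Type*} [Lattice L] [Finite L] {X B : L} (h : Splits X B)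
    {L' : Type*} [Lattice L'] [Finite L'] (e : L' ≃o Set.Iic B) (h' : Boo L' ∨ StrictF L') :
    Boo L ∨ StrictF L := by
  have f : Bool × L' ≃o L := (prodIso e).trans h.iso.symm
  rcases h' with h' | h'
  · left; exact h'.prod.map f
  · right; exact h'.prod.map f

end Pool.Agent.Helper29.SubLat
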