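import Pool.Agent.Helper29.SubLat.Strict

/-!
# The strict form: algebras
-/

set_option autoImplicit false

namespace Pool.Agent.Helper29.SubLat

open Pool.Agent.Y396.Frankl

universe u v

theorem exists_nil_gen' {n : ℕ} {F : Type*} [Field F] [Finite F] :
    ∃ a b p : Matrix (Fin (n + 2)) (Fin (n + 2)) F, a ≠ 0 ∧ b ≠ 0 ∧ IsNilpotent a ∧
      IsNilpotent b ∧ a * p ≠ p * a ∧ b * p ≠ p * b ∧
      ∀ D : NonUnitalSubring (Matrix (Fin (n + 2)) (Fin (n + 2)) F), a ∈ D → b ∈ D → D = ⊤ := by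
  classical
  obtain ⟨θ, hθ⟩ := IsCyclic.exists_generator (α := Fˣ)
  have hne : (Fin.last (n + 1) : Fin (n + 2)) ≠ 0 := by
    intro h
    have := congrArg Fin.val h
    simp at this
  have hb0 : (Matrix.single (Fin.last (n + 1)) 0 (θ : F) : Matrix (Fin (n + 2)) (Fin (n + 2)) F)
      ≠ 0 := by
    intro h
    have h1 := congrFun (congrFun h (Fin.last (n + 1))) 0
    rw [Matrix.single_apply_same] at h1
    exact θ.ne_zero h1
  refine ⟨upShift (n + 2) F, Matrix.single (Fin.last (n + 1)) 0 (θ : F), Matrix.single 0 0 1,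
    upShift_ne, hb0, upShift_nilpotent, ⟨2, ?_⟩, ?_, ?_, fun D h1 h2 => gen_top hθ D h1 h2⟩
  · rw [pow_two]
    apply Matrix.single_mul_single_of_ne
    exact hne.symm
  · intro h
    rw [mul_upShift (n := n + 2) 0 0 1 (by simp) (1 : F)] at h
    have h1 := congrFun (congrFun h 0) 1
    rw [Matrix.single_apply_same, Matrix.mul_apply] at h1
    apply one_ne_zero (α := F)
    rw [← h1]
    apply Finset.sum_eq_zero
    intro k _
    rw [Matrix.single_apply, if_neg (by simp), mul_zero]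
  · intro h
    rw [Matrix.single_mul_single_same, mul_one] at h
    apply hb0
    rw [h]
    apply Matrix.single_mul_single_of_ne
    exact hne.symm

theorem good2_lift {S A Q : Type*} [CommRing S] [Ring A] [Ring Q] [Algebra S A] [Algebra S Q]
    [Finite A] (φ : A →ₐ[S] Q) (hφ : Function.Surjective φ) {B : Subalgebra S Q}
    (h : Good2 (Subalgebra S Q) B) : Good2 (Subalgebra S A) (B.comap φ) := by
  have hfin := finite_subalgebra S A
  obtain ⟨X', Y', hX', hY', hXB, hYB, hT', hH'⟩ := h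
  have hmin : ∀ Z : Subalgebra S Q, SupIrred Z → ∃ X : Subalgebra S A, X.map φ = Z ∧ SupIrred X := by
    intro Z hZ
    obtain ⟨X, hX⟩ : ∃ X, Minimal (fun X : Subalgebra S A => X.map φ = Z) X :=
      (Set.toFinite {X : Subalgebra S A | X.map φ = Z}).exists_minimal
        ⟨Z.comap φ, Subalgebra.map_comap_eq_self_of_surjective hφ Z⟩
    refine ⟨X, hX.1, ?_, ?_⟩
    · intro hm
      apply hZ.1
      have h1 : X = ⊥ := le_bot_iff.1 (hm bot_le)
      have h2 : Z = ⊥ := by rw [← hX.1, h1, Algebra.map_bot]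
      rw [h2]
      exact isMin_bot
    · intro b c hbc
      have h1 : b.map φ ⊔ c.map φ = Z := by rw [← Algebra.map_sup, hbc, hX.1]
      rcases hZ.2 h1 with h2 | h2
      · left; exact le_antisymm (hbc ▸ le_sup_left) (hX.2 h2 (hbc ▸ le_sup_left))
      · right; exact le_antisymm (hbc ▸ le_sup_right) (hX.2 h2 (hbc ▸ le_sup_right))
  have hle : ∀ (X : Subalgebra S A) (C : Subalgebra S Q), X ≤ C.comap φ → X.map φ ≤ C :=
    fun X C h => (Subalgebra.map_le).2 h
  have core : ∀ X Y : Subalgebra S A, X.map φ = X' → Y.map φ = Y' →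
      ∀ T : Subalgebra S A, X ≤ T → Y ≤ T → T ≤ (T ⊓ B.comap φ) ⊔ X ⊔ Y := by
    intro X Y hX hY T hXT hYT t ht
    have hTM := hT' (T.map φ) (hX ▸ Subalgebra.map_mono hXT) (hY ▸ Subalgebra.map_mono hYT)
    have h1 : φ t ∈ ((T ⊓ B.comap φ) ⊔ X ⊔ Y).map φ := by
      have h2 : T.map φ ≤ ((T ⊓ B.comap φ) ⊔ X ⊔ Y).map φ := by
        refine hTM.trans ?_
        rw [Algebra.map_sup, Algebra.map_sup, hX, hY]
        refine sup_le_sup_right (sup_le_sup_right ?_ _) _
        rintro m ⟨hm1, hm2⟩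
        obtain ⟨s, hs, rfl⟩ := hm1
        exact ⟨s, ⟨hs, hm2⟩, rfl⟩
      exact h2 ⟨t, ht, rfl⟩
    obtain ⟨w, hw, hwt⟩ := h1
    have hwt' : φ w = φ t := hwt
    have hwT : w ∈ T := (sup_le (sup_le inf_le_left hXT) hYT : _ ≤ T) hw
    have h3 : t - w ∈ T ⊓ B.comap φ := by
      refine ⟨T.sub_mem ht hwT, ?_⟩
      change φ (t - w) ∈ B
      rw [map_sub, hwt', sub_self]
      exact B.zero_mem
    have h6 : (T ⊓ B.comap φ) ≤ (T ⊓ B.comap φ) ⊔ X ⊔ Y := le_sup_left.trans le_sup_left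
    have h4 : t - w ∈ (T ⊓ B.comap φ) ⊔ X ⊔ Y := h6 h3
    have h5 := Subalgebra.add_mem _ h4 hw
    rwa [sub_add_cancel] at h5
  obtain ⟨X, hX, hXi⟩ := hmin X' hX'
  have hXB' : ¬ X ≤ B.comap φ := fun h1 => hXB (hX ▸ hle X B h1)
  rcases hH' with hXY | ⟨H', h1, h2, h3⟩
  · subst hXY
    exact ⟨X, X, hXi, hXi, hXB', hXB', core X X hX hX, Or.inl rfl⟩
  · obtain ⟨Y, hY, hYi⟩ := hmin Y' hY'
    have hYB' : ¬ Y ≤ B.comap φ := fun h1 => hYB (hY ▸ hle Y B h1)
    refine ⟨X, Y, hXi, hYi, hXB', hYB', core X Y hX hY, Or.inr ⟨H'.comap φ,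
      fun h => h1 (hX ▸ hle X H' h), fun h => h2 (hY ▸ hle Y H' h), fun h => h3 ?_⟩⟩
    intro x hx
    obtain ⟨y, rfl⟩ := hφ x
    exact h hx

theorem good2_of_two {S Q : Type*} [CommRing S] [Ring Q] [Algebra S Q]
    (h0 : (⊥ : Subalgebra S Q) ≠ ⊤)
    (h : ∀ T : Subalgebra S Q, T ≠ ⊥ → T = ⊤) : Good2 (Subalgebra S Q) ⊥ := by
  have hirr : SupIrred (⊤ : Subalgebra S Q) := by
    constructor
    · intro hm
      exact h0 (le_antisymm bot_le (hm bot_le))
    · intro b c hbc
      by_contra hno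
      push Not at hno
      have hb : b = ⊥ := by
        by_contra hb
        exact hno.1 (h b hb)
      have hc : c = ⊥ := by
        by_contra hc
        exact hno.2 (h c hc)
      rw [hb, hc, bot_sup_eq] at hbc
      exact h0 hbc
  refine ⟨⊤, ⊤, hirr, hirr, fun h1 => ?_, fun h1 => ?_, fun T _ _ => ?_, Or.inl rfl⟩
  · exact h0 (le_antisymm bot_le h1)
  · exact h0 (le_antisymm bot_le h1)
  · exact le_top.trans le_sup_right

theorem good2_field {S F : Type*} [CommRing S] [Field F] [Finite F] [Algebra S F]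
    (h0 : (⊥ : Subalgebra S F) ≠ ⊤) : ∃ B, Good2 (Subalgebra S F) B := by
  have hfin := finite_subalgebra S F
  obtain ⟨B, hB, -⟩ := (eq_top_or_exists_le_coatom (⊥ : Subalgebra S F)).resolve_left h0
  obtain ⟨X, hX⟩ : ∃ X, Minimal (fun X : Subalgebra S F => ¬ X ≤ B) X :=
    (Set.toFinite {X : Subalgebra S F | ¬ X ≤ B}).exists_minimal
      ⟨⊤, fun h => hB.1 (top_le_iff.1 h)⟩
  refine ⟨B, X, X, supIrred_of_minimal hX, supIrred_of_minimal hX, hX.1, hX.1,
    fun T hT _ => ?_, Or.inl rfl⟩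
  refine (modular_law T X B hT ?_).trans le_sup_left
  exact hB.2 _ (lt_of_le_of_ne le_sup_left (fun h => hX.1 (by rw [h]; exact le_sup_right)))

/-- some nonzero ideal has a nonzero annihilator -/
theorem two_case_one {S Q : Type*} [CommRing S] [Ring Q] [Algebra S Q]
    (h0 : ∃ x : Q, ∀ k : S, x ≠ algebraMap S Q k)
    (hmin : ∀ L : TwoSidedIdeal Q, L ≠ ⊥ → ∀ x : Q, ∃ k : S, x - algebraMap S Q k ∈ L)
    (K N : TwoSidedIdeal Q) (hK : K ≠ ⊥) (hN : N ≠ ⊥)
    (hKN : ∀ x ∈ K, ∀ y ∈ N, x * y = 0 ∧ y * x = 0) : ∃ B, Good2 (Subalgebra S Q) B := by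
  have hbt : (⊥ : Subalgebra S Q) ≠ ⊤ := by
    intro h
    obtain ⟨x, hx⟩ := h0
    obtain ⟨k, hk⟩ := Algebra.mem_bot.1 (h ▸ Algebra.mem_top : x ∈ (⊥ : Subalgebra S Q))
    exact hx k hk.symm
  refine ⟨⊥, good2_of_two hbt fun T hT => ?_⟩
  obtain ⟨t, htT, ht⟩ : ∃ t ∈ T, t ∉ (⊥ : Subalgebra S Q) := by
    by_contra hno
    push Not at hno
    exact hT (le_bot_iff.1 hno)
  obtain ⟨k, hk⟩ := hmin K hK t
  -- an element of `K` in `T`
  obtain ⟨i, hi⟩ : ∃ i, i = t - algebraMap S Q k := ⟨_, rfl⟩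
  have hiK : i ∈ K := hi ▸ hk
  have hiT : i ∈ T := hi ▸ T.sub_mem htT (T.algebraMap_mem k)
  have hi0 : i ≠ 0 := by
    intro h
    apply ht
    rw [h] at hi
    exact Algebra.mem_bot.2 ⟨k, (sub_eq_zero.1 hi.symm).symm⟩
  have hmul : ∀ x : Q, ∃ l : S, x * i = l • i ∧ i * x = l • i := by
    intro x
    obtain ⟨l, hl⟩ := hmin N hN x
    have h1 := hKN i hiK _ hl
    refine ⟨l, ?_, ?_⟩
    · have h2 := h1.2
      rw [sub_mul, ← Algebra.smul_def, sub_eq_zero] at h2
      exact h2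
    · have h2 := h1.1
      rw [mul_sub, ← Algebra.commutes, ← Algebra.smul_def, sub_eq_zero] at h2
      exact h2
  let I : TwoSidedIdeal Q := TwoSidedIdeal.mk' {x | ∃ l : S, x = l • i} ⟨0, by rw [zero_smul]⟩
    (by
      rintro x y ⟨l, rfl⟩ ⟨m, rfl⟩
      exact ⟨l + m, by rw [add_smul]⟩)
    (by
      rintro x ⟨l, rfl⟩
      exact ⟨-l, by rw [neg_smul]⟩)
    (by
      rintro x y ⟨l, rfl⟩
      obtain ⟨m, hm, -⟩ := hmul x
      exact ⟨l * m, by rw [mul_smul_comm, hm, mul_smul]⟩)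
    (by
      rintro x y ⟨l, rfl⟩
      obtain ⟨m, -, hm⟩ := hmul y
      exact ⟨l * m, by rw [smul_mul_assoc, hm, mul_smul]⟩)
  have hI : ∀ x, x ∈ I ↔ ∃ l : S, x = l • i := fun x => TwoSidedIdeal.mem_mk' _ _ _ _ _ _ x
  have hI0 : I ≠ ⊥ := by
    intro h
    have h1 : i ∈ I := (hI i).2 ⟨1, by rw [one_smul]⟩
    rw [h] at h1
    exact hi0 ((TwoSidedIdeal.mem_bot _).1 h1)
  rw [eq_top_iff]
  intro x _
  obtain ⟨l, hl⟩ := hmin I hI0 x
  obtain ⟨m, hm⟩ := (hI _).1 hl
  have h1 : x = m • i + algebraMap S Q l := by rw [← hm]; abel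
  rw [h1]
  exact T.add_mem (T.smul_mem hiT m) (T.algebraMap_mem l)

/-- the simple case -/
theorem two_case_two {S : Type v} {Q : Type u} [CommRing S] [Ring Q] [Algebra S Q] [Finite Q]
    (h0 : ∃ x : Q, ∀ k : S, x ≠ algebraMap S Q k)
    (hmin : ∀ L : TwoSidedIdeal Q, L ≠ ⊥ → ∀ x : Q, ∃ k : S, x - algebraMap S Q k ∈ L)
    (hann : ∀ K N : TwoSidedIdeal Q, K ≠ ⊥ → N ≠ ⊥ →
      ∃ x ∈ K, ∃ y ∈ N, ¬ (x * y = 0 ∧ y * x = 0)) : ∃ B, Good2 (Subalgebra S Q) B := by
  have hnt : Nontrivial Q := by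
    obtain ⟨x, hx⟩ := h0
    exact ⟨⟨x, 0, fun h => hx 0 (by rw [h]; simp)⟩⟩
  have hbt : (⊥ : Subalgebra S Q) ≠ ⊤ := by
    intro h
    obtain ⟨x, hx⟩ := h0
    obtain ⟨k, hk⟩ := Algebra.mem_bot.1 (h ▸ Algebra.mem_top : x ∈ (⊥ : Subalgebra S Q))
    exact hx k hk.symm
  have hS := scalar_inv (S := S) hann
  obtain ⟨n, hn, F, _, _, ⟨ψ⟩⟩ := exists_matrix hmin hann
  obtain ⟨m, rfl⟩ := Nat.exists_eq_succ_of_ne_zero (NeZero.ne n)
  rcases m with _ | m
  · -- a field
    have h1 : IsField Q := ((ψ.trans Matrix.uniqueRingEquiv).toMulEquiv).isField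
      (Field.toIsField F)
    let _ : Field Q := h1.toField
    exact good2_field (F := Q) hbt
  · obtain ⟨a', b', p', ha', hb', hna', hnb', hap', hbp', hgen⟩ :=
      exists_nil_gen' (n := m) (F := F)
    obtain ⟨a, rfl⟩ := ψ.surjective a'
    obtain ⟨b, rfl⟩ := ψ.surjective b'
    obtain ⟨p, rfl⟩ := ψ.surjective p'
    have ha0 : a ≠ 0 := fun h => ha' (by rw [h, map_zero])
    have hb0 : b ≠ 0 := fun h => hb' (by rw [h, map_zero])
    have hap : a * p ≠ p * a := fun h => hap' (by rw [← map_mul, ← map_mul, h])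
    have hbp : b * p ≠ p * b := fun h => hbp' (by rw [← map_mul, ← map_mul, h])
    have hna : IsNilpotent a := by
      obtain ⟨r, hr⟩ := hna'
      exact ⟨r, ψ.injective (by rw [map_pow, hr, map_zero])⟩
    have hnb : IsNilpotent b := by
      obtain ⟨r, hr⟩ := hnb'
      exact ⟨r, ψ.injective (by rw [map_pow, hr, map_zero])⟩
    have hX := supIrred_adjoin hS ha0 hna
    have hY := supIrred_adjoin hS hb0 hnb
    have htop : ∀ T : Subalgebra S Q, Algebra.adjoin S {a} ≤ T → Algebra.adjoin S {b} ≤ T →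
        T = ⊤ := by
      intro T hTa hTb
      have h1 := hgen
        { carrier := {y | ∃ x ∈ T, ψ x = y}
          add_mem' := by
            rintro _ _ ⟨x, hx, rfl⟩ ⟨y, hy, rfl⟩
            exact ⟨x + y, T.add_mem hx hy, map_add _ _ _⟩
          zero_mem' := ⟨0, T.zero_mem, map_zero _⟩
          neg_mem' := by
            rintro _ ⟨x, hx, rfl⟩
            exact ⟨-x, T.neg_mem hx, map_neg _ _⟩
          mul_mem' := by
            rintro _ _ ⟨x, hx, rfl⟩ ⟨y, hy, rfl⟩
            exact ⟨x * y, T.mul_mem hx hy, map_mul _ _ _⟩ }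
        ⟨a, hTa (Algebra.subset_adjoin rfl), rfl⟩ ⟨b, hTb (Algebra.subset_adjoin rfl), rfl⟩
      rw [eq_top_iff]
      intro x _
      have h2 : ψ x ∈ (⊤ : NonUnitalSubring (Matrix (Fin (m + 2)) (Fin (m + 2)) F)) := trivial
      rw [← h1] at h2
      obtain ⟨y, hy, hyx⟩ := h2
      rw [← ψ.injective hyx]
      exact hy
    have hpc : p ∈ Subalgebra.centralizer S {p} := by
      rw [Subalgebra.mem_centralizer_iff]
      rintro g rfl
      rfl
    refine ⟨⊥, _, _, hX, hY, fun h => ?_, fun h => ?_, fun T hTX hTY => ?_,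
      Or.inr ⟨Subalgebra.centralizer S {p}, fun h => ?_, fun h => ?_, fun h => ?_⟩⟩
    · exact hX.1 (fun z _ => h.trans bot_le)
    · exact hY.1 (fun z _ => h.trans bot_le)
    · have h1 := htop (T ⊓ ⊥ ⊔ Algebra.adjoin S {a} ⊔ Algebra.adjoin S {b})
        (le_sup_right.trans le_sup_left) le_sup_right
      rw [h1]
      exact le_top
    · have h1 := h (Algebra.subset_adjoin (R := S) (Set.mem_singleton a))
      rw [Subalgebra.mem_centralizer_iff] at h1
      exact hap (h1 p rfl).symm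
    · have h1 := h (Algebra.subset_adjoin (R := S) (Set.mem_singleton b))
      rw [Subalgebra.mem_centralizer_iff] at h1
      exact hbp (h1 p rfl).symm
    · obtain ⟨k, hk⟩ := Algebra.mem_bot.1 (h hpc)
      apply hap
      rw [← hk, Algebra.commutes]

/-- the minimal quotients -/
theorem two_of_minimal {S : Type v} {Q : Type u} [CommRing S] [Ring Q] [Algebra S Q] [Finite Q]
    (h0 : ∃ x : Q, ∀ k : S, x ≠ algebraMap S Q k)
    (hmin : ∀ L : TwoSidedIdeal Q, L ≠ ⊥ → ∀ x : Q, ∃ k : S, x - algebraMap S Q k ∈ L) :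
    ∃ B, Good2 (Subalgebra S Q) B := by
  by_cases h : ∃ K N : TwoSidedIdeal Q, K ≠ ⊥ ∧ N ≠ ⊥ ∧ ∀ x ∈ K, ∀ y ∈ N, x * y = 0 ∧ y * x = 0
  · obtain ⟨K, N, hK, hN, hKN⟩ := h
    exact two_case_one h0 hmin K N hK hN hKN
  · refine two_case_two h0 hmin fun K N hK hN => ?_
    by_contra hno
    apply h
    refine ⟨K, N, hK, hN, fun x hx y hy => ?_⟩
    by_contra h1
    exact hno ⟨x, hx, y, hy, h1⟩

theorem two_subalgebra {S : Type v} {R : Type u} [CommRing S] [Ring R] [Algebra S R] [Finite R]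
    (h0 : ∃ x : R, ∀ k : S, x ≠ algebraMap S R k) : ∃ B, Good2 (Subalgebra S R) B := by
  classical
  have hfinT : Finite (TwoSidedIdeal R) :=
    Finite.of_injective (fun H : TwoSidedIdeal R => (H : Set R)) SetLike.coe_injective
  -- an ideal that is maximal such that `R / I` is not generated by `1`
  obtain ⟨I, hI, hImax⟩ := Set.exists_max_image
    {L : TwoSidedIdeal R | ∃ x : R, ∀ k : S, x - algebraMap S R k ∉ L}
    (fun L => (L : Set R).ncard) (Set.toFinite _) (by
      obtain ⟨x, hx⟩ := h0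
      refine ⟨⊥, x, fun k hk => hx k ?_⟩
      exact sub_eq_zero.1 ((TwoSidedIdeal.mem_bot _).1 hk))
  obtain ⟨x₀, hx₀⟩ := hI
  let Q := I.ringCon.Quotient
  let q : R →+* Q := I.ringCon.mk'
  have hq : Function.Surjective q := I.ringCon.mk'_surjective
  have hqker : ∀ x : R, q x = 0 ↔ x ∈ I := by
    intro x
    rw [TwoSidedIdeal.mem_iff]
    change I.ringCon.mk' x = 0 ↔ _
    rw [← map_zero I.ringCon.mk']
    exact Quotient.eq (r := I.ringCon.toSetoid)
  have hfinQ : Finite Q := Finite.of_surjective q hq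
  let _ : Algebra S Q := (q.comp (algebraMap S R)).toAlgebra' (by
    intro c x
    obtain ⟨y, rfl⟩ := hq x
    rw [RingHom.comp_apply, ← map_mul, ← map_mul, Algebra.commutes])
  have hqs : ∀ s : S, algebraMap S Q s = q (algebraMap S R s) := fun s => rfl
  have hgood : ∃ B, Good2 (Subalgebra S Q) B := two_of_minimal (S := S) (Q := Q)
    ⟨q x₀, fun k hk => hx₀ k (by
      rw [← hqker, map_sub, ← hqs, hk, sub_self])⟩
    (by
      intro L hL x
      obtain ⟨y, rfl⟩ := hq x
      -- the preimage of `L`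
      let L' : TwoSidedIdeal R := L.comap q
      have hL' : ∀ z, z ∈ L' ↔ q z ∈ L := fun z => TwoSidedIdeal.mem_comap q
      by_contra hno
      push Not at hno
      have h1 : L' ∈ {L : TwoSidedIdeal R | ∃ x : R, ∀ k : S, x - algebraMap S R k ∉ L} := by
        refine ⟨y, fun k hk => hno k ?_⟩
        rw [hL', map_sub] at hk
        exact hk
      have h2 : (I : Set R) ⊆ (L' : Set R) := by
        intro z hz
        have h3 : q z = 0 := (hqker z).2 hz
        change z ∈ L'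
        rw [hL', h3]
        exact L.zero_mem
      have h4 := Set.eq_of_subset_of_ncard_le h2 (hImax L' h1) (Set.toFinite _)
      apply hL
      rw [eq_bot_iff]
      intro z hz
      obtain ⟨w, rfl⟩ := hq z
      have h5 : w ∈ L' := (hL' w).2 hz
      have h6 : w ∈ I := by
        have h7 : w ∈ (L' : Set R) := h5
        rw [← h4] at h7
        exact h7
      rw [TwoSidedIdeal.mem_bot]
      exact (hqker w).2 h6)
  let qa : R →ₐ[S] Q := { q with commutes' := fun s => rfl }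
  obtain ⟨B, hB⟩ := hgood
  exact ⟨B.comap qa, good2_lift qa hq hB⟩

/-- the subalgebras of a subalgebra -/
def iicIso {S A : Type*} [CommRing S] [Ring A] [Algebra S A] (B : Subalgebra S A) :
    Subalgebra S B ≃o Set.Iic B where
  toFun K := ⟨K.map B.val, by
    rintro x ⟨y, _, rfl⟩
    exact y.2⟩
  invFun H := H.1.comap B.val
  left_inv K := by
    apply Subalgebra.comap_map_eq_self_of_injective
    exact Subtype.val_injective
  right_inv H := by
    apply Subtype.ext
    ext x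
    constructor
    · rintro ⟨y, hy, rfl⟩
      exact hy
    · intro hx
      exact ⟨⟨x, H.2 hx⟩, hx, rfl⟩
  map_rel_iff' := by
    intro K K'
    constructor
    · intro h x hx
      obtain ⟨y, hy, hyx⟩ := h (⟨x, hx, rfl⟩ : B.val x ∈ K.map B.val)
      rwa [← Subtype.ext hyx]
    · intro h
      exact Subalgebra.map_mono h

/-- **Poonen's dichotomy for the lattices of subalgebras** -/
theorem poonen_subalgebra (S : Type v) [CommRing S] (n : ℕ) :
    ∀ (A : Type u) [Ring A] [Algebra S A] [Finite A], Nat.card A = n →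
      Boo (Subalgebra S A) ∨ StrictF (Subalgebra S A) := by
  induction n using Nat.strong_induction_on with
  | _ n ih =>
    intro A _ _ _ hA
    have hfin := finite_subalgebra S A
    by_cases h0 : ∃ x : A, ∀ k : S, x ≠ algebraMap S A k
    · obtain ⟨B, hB⟩ := two_subalgebra h0
      rcases dich hB with h | ⟨X, hX⟩
      · right; exact h
      · have hB1 : B ≠ ⊤ := fun h => hX.not_le (h ▸ le_top)
        have hfinB := finite_subalgebra S B
        obtain ⟨x, hx⟩ : ∃ x : A, x ∉ B := by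
          by_contra hno
          push Not at hno
          exact hB1 (Algebra.eq_top_iff.2 hno)
        have hlt : Nat.card B < n := by
          rw [← hA]
          exact Finite.card_subtype_lt (p := fun x => x ∈ B) hx
        exact hX.transfer (iicIso B) (ih _ hlt B rfl)
    · left
      push Not at h0
      have hsub : ∀ H : Subalgebra S A, H = ⊥ := by
        intro H
        rw [eq_bot_iff]
        intro x _
        obtain ⟨k, hk⟩ := h0 x
        exact Algebra.mem_bot.2 ⟨k, hk.symm⟩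
      refine ⟨0, ⟨{ toFun := fun _ => default, invFun := fun _ => ⊥, left_inv := fun H => (hsub H).symm,
                     right_inv := fun _ => Subsingleton.elim _ _, map_rel_iff' := ?_ }⟩⟩
      intro H K
      rw [hsub H, hsub K]
      exact ⟨fun _ => le_rfl, fun _ => le_rfl⟩

theorem poonen_unital (S : Type v) (A : Type u) [CommRing S] [Ring A] [Algebra S A] [Finite A] :
    Boo (Subalgebra S A) ∨ StrictF (Subalgebra S A) :=
  poonen_subalgebra S _ A rfl

theorem poonen_nonunital (S : Type v) (R : Type u) [CommRing S] [NonUnitalRing R] [Module S R]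
    [IsScalarTower S R R] [SMulCommClass S R R] [Finite R] :
    Boo (NonUnitalSubalgebra S R) ∨ StrictF (NonUnitalSubalgebra S R) := by
  obtain ⟨A, _, _, _, e, -⟩ := exists_unital S R
  rcases poonen_unital S A with h | h
  · left; exact h.map e
  · right; exact h.map e

end Pool.Agent.Helper29.SubLat
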